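import Pool.Agent.V7H40.CH.Cov
import Pool.Agent.V7H40.TR.Poi
import Pool.Agent.R751.MB.Lin
import Pool.Agent.R751.MB.Wht

/-!
# Chain bodies: isotropic position
-/

set_option autoImplicit false

namespace Pool.Agent.V7H40.CH

open Finset MeasureTheory
open scoped ENNReal InnerProductSpace
open Pool.Agent.R751.MB (Eu EW VW Adm AP)
open Pool.Agent.V7H40.TR (iW int_iW)

variable {n : ℕ} {b : Fin n → ℕ} {s : ℕ} {K : Set (Eu (Fin n))}

/-- coordinates -/
def co (K : Set (Eu (Fin n))) : Set (Fin n → ℝ) := {y | WithLp.toLp 2 y ∈ K}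

/-- coordinates, as a linear map -/
noncomputable def EE (n : ℕ) : (Fin n → ℝ) ≃L[ℝ] Eu (Fin n) :=
  (PiLp.continuousLinearEquiv 2 ℝ (fun _ : Fin n => ℝ)).symm

theorem EE_apply (y : Fin n → ℝ) : EE n y = WithLp.toLp 2 y := rfl

theorem co_comp (hK : IsCompact K) : IsCompact (co K) :=
  (EE n).toHomeomorph.isCompact_preimage.2 hK

theorem int_co (_hK : MeasurableSet K) (g : Eu (Fin n) → ℝ) :
    ∫ x in K, g x = ∫ y in co K, g (WithLp.toLp 2 y) := by
  have hp := PiLp.volume_preserving_toLp (Fin n)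
  exact (hp.setIntegral_preimage_emb (EE n).toHomeomorph.measurableEmbedding g K).symm

theorem int_one (hK : MeasurableSet K) : ∫ x, iW K x = (volume (co K)).toReal := by
  have h2 := int_iW hK fun _ => 1
  simp only [one_mul] at h2
  rw [h2, int_co hK, setIntegral_const, smul_eq_mul, mul_one, measureReal_def]

theorem EW_co (hK : MeasurableSet K) (g : Eu (Fin n) → ℝ) :
    EW (iW K) g = (∫ y in co K, g (WithLp.toLp 2 y)) / (volume (co K)).toReal := by
  unfold EW
  rw [int_iW hK, int_co hK, int_one hK]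

theorem adm_iW (hK : IsCompact K) (hv : volume K ≠ 0) : Adm (iW K) where
  nonneg x := Set.indicator_nonneg (fun _ _ => zero_le_one) x
  int := by
    have h1 : (fun x => (1 + ‖x‖ ^ 2) * iW K x) = K.indicator fun x => 1 + ‖x‖ ^ 2 := by
      funext x
      unfold iW
      by_cases hx : x ∈ K
      · rw [Set.indicator_of_mem hx, Set.indicator_of_mem hx, mul_one]
      · rw [Set.indicator_of_notMem hx, Set.indicator_of_notMem hx, mul_zero]
    rw [h1, integrable_indicator_iff hK.isClosed.measurableSet]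
    have hc : Continuous fun x : Eu (Fin n) => 1 + ‖x‖ ^ 2 := by fun_prop
    exact hc.continuousOn.integrableOn_compact hK
  pos := by
    have h2 := int_iW hK.isClosed.measurableSet fun _ => 1
    simp only [one_mul] at h2
    rw [h2, setIntegral_const, smul_eq_mul, mul_one, measureReal_def]
    exact ENNReal.toReal_pos hv hK.measure_lt_top.ne
  meas := measurable_const.indicator hK.isClosed.measurableSet

theorem norm_sum (l : Eu (Fin n) →L[ℝ] ℝ) :
    ∑ i, l (WithLp.toLp 2 (Pi.single i 1)) ^ 2 ≤ ‖l‖ ^ 2 := by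
  obtain ⟨v, hv⟩ : ∃ v : Eu (Fin n), v = WithLp.toLp 2 fun i => l (WithLp.toLp 2 (Pi.single i 1)) :=
    ⟨_, rfl⟩
  have h1 : ‖v‖ ^ 2 = ∑ i, l (WithLp.toLp 2 (Pi.single i 1)) ^ 2 := by
    rw [EuclideanSpace.norm_sq_eq, hv]
    exact sum_congr rfl fun i _ => by rw [Real.norm_eq_abs, sq_abs]
  have h2 : v = ∑ i, v i • (WithLp.toLp 2 (Pi.single i (1 : ℝ)) : Eu (Fin n)) := by
    ext j
    simp [Pi.single_apply]
  have h3 : l v = ‖v‖ ^ 2 := by
    rw [h1]
    conv_lhs => rw [h2]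
    rw [map_sum]
    refine sum_congr rfl fun i _ => ?_
    rw [map_smul, smul_eq_mul, hv]
    ring
  have h4 := l.le_opNorm v
  rw [h3, Real.norm_of_nonneg (sq_nonneg _)] at h4
  rw [← h1]
  rcases (norm_nonneg v).eq_or_lt with h5 | h5
  · rw [← h5, zero_pow two_ne_zero]
    exact sq_nonneg _
  · have h6 : ‖v‖ ≤ ‖l‖ := by
      have h7 : ‖v‖ * ‖v‖ ≤ ‖l‖ * ‖v‖ := by rw [← pow_two]; exact h4
      exact le_of_mul_le_mul_right h7 h5
    exact pow_le_pow_left₀ h5.le h6 2

theorem eta_le {f : Eu (Fin n) → ℝ} (hf : ContDiff ℝ 1 f) (y : Fin n → ℝ) :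
    eta (fun y => f (WithLp.toLp 2 y)) y ≤ ‖fderiv ℝ f (WithLp.toLp 2 y)‖ ^ 2 := by
  refine le_trans (le_of_eq ?_) (norm_sum _)
  unfold eta
  refine sum_congr rfl fun i _ => ?_
  congr 1
  unfold DD
  have h1 := ((hf.differentiable one_ne_zero (EE n y)).hasFDerivAt).comp y
    ((EE n : (Fin n → ℝ) →L[ℝ] Eu (Fin n)).hasFDerivAt (x := y))
  have h2 : fderiv ℝ (fun y => f (WithLp.toLp 2 y)) y =
    (fderiv ℝ f (EE n y)).comp (EE n : (Fin n → ℝ) →L[ℝ] Eu (Fin n)) := h1.fderiv
  rw [h2]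
  rfl

/-- isotropic bodies -/
theorem ap_iso (hs1 : 1 ≤ s) (hs : ∀ j, (univ.filter fun i => b i = j).card ≤ s)
    (hK : IsCompact K) (hc : Chain b (co K)) (ha : Adm (iW K))
    (hθ : ∀ θ : Eu (Fin n), VW (iW K) (fun x => ⟪x, θ⟫_ℝ) = ‖θ‖ ^ 2) :
    AP (CC s (4 * 8 ^ s)) (iW K) := by
  have hm := hK.isClosed.measurableSet
  obtain ⟨V, hVd⟩ : ∃ V : ℝ, V = (volume (co K)).toReal := ⟨_, rfl⟩
  have hV : 0 < V := by
    rw [hVd, ← int_one hm]
    exact ha.pos
  have h2 : ∀ i, ∫ y in co K, y i ^ 2 = V := by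
    intro i
    have e1 := hθ (EuclideanSpace.single i 1)
    have e2 : (fun x : Eu (Fin n) => ⟪x, EuclideanSpace.single i (1 : ℝ)⟫_ℝ) = fun x => x i := by
      funext x
      rw [EuclideanSpace.inner_single_right]
      simp
    rw [e2] at e1
    unfold VW at e1
    rw [EW_co hm, EW_co hm, hc.odd i, ← hVd, zero_div] at e1
    have e3 : ‖(EuclideanSpace.single i (1 : ℝ) : Eu (Fin n))‖ = 1 := by simp
    rw [e3, zero_pow two_ne_zero, sub_zero, one_pow, div_eq_one_iff_eq hV.ne'] at e1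
    exact e1
  have hR : ∀ y ∈ co K, ∀ i, |y i| ≤ 4 * 8 ^ s := by
    intro y hy i
    have e1 := cov_low hc hs hy i
    rw [← hVd, h2, mul_comm] at e1
    have e2 : y i ^ 2 ≤ 16 * 64 ^ s := le_of_mul_le_mul_right e1 hV
    have e3 : (16 : ℝ) * 64 ^ s = (4 * 8 ^ s) ^ 2 := by
      rw [mul_pow, ← pow_mul, mul_comm s 2, pow_mul]
      norm_num
    rw [e3] at e2
    exact abs_le_of_sq_le_sq e2 (by positivity)
  have hP := hc.poi hs1 hs hR
  refine ⟨ha, ContinuousLinearEquiv.refl ℝ _, hθ, fun f hf _ _ => ?_⟩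
  change VW (iW K) f ≤ CC s (4 * 8 ^ s) * EW (iW K) fun x => ‖fderiv ℝ f x‖ ^ 2
  have hF : ContDiff ℝ 1 fun y : Fin n → ℝ => f (WithLp.toLp 2 y) := hf.comp (EE n).contDiff
  have h3 := hP _ hF
  have hcK := hc.comp
  have h4 : ∫ y in co K, eta (fun y => f (WithLp.toLp 2 y)) y ≤
      ∫ y in co K, ‖fderiv ℝ f (WithLp.toLp 2 y)‖ ^ 2 := by
    refine integral_mono ((eta_cont hF).continuousOn.integrableOn_compact hcK) ?_ fun y =>
      eta_le hf y
    have hcf : Continuous fun y : Fin n → ℝ => ‖fderiv ℝ f (EE n y)‖ ^ 2 :=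
      ((hf.continuous_fderiv one_ne_zero).comp (EE n).continuous).norm.pow 2
    exact hcf.continuousOn.integrableOn_compact hcK
  unfold VW
  rw [EW_co hm, EW_co hm, EW_co hm, ← hVd]
  rw [← hVd] at h3
  obtain ⟨a, ha1⟩ : ∃ a : ℝ, a = ∫ y in co K, f (WithLp.toLp 2 y) ^ 2 := ⟨_, rfl⟩
  obtain ⟨c, hc1⟩ : ∃ c : ℝ, c = ∫ y in co K, f (WithLp.toLp 2 y) := ⟨_, rfl⟩
  obtain ⟨d, hd1⟩ : ∃ d : ℝ, d = ∫ y in co K, ‖fderiv ℝ f (WithLp.toLp 2 y)‖ ^ 2 := ⟨_, rfl⟩
  rw [← ha1, ← hc1] at h3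
  rw [← ha1, ← hc1, ← hd1]
  rw [← hd1] at h4
  have hC := CC_nonneg s (4 * 8 ^ s)
  have h5 : V * a ≤ c ^ 2 + CC s (4 * 8 ^ s) * (V * d) :=
    h3.trans (by gcongr)
  have e : CC s (4 * 8 ^ s) * (d / V) - (a / V - (c / V) ^ 2) =
      (c ^ 2 + CC s (4 * 8 ^ s) * (V * d) - V * a) / V ^ 2 := by
    field_simp
    ring
  have h6 : 0 ≤ (c ^ 2 + CC s (4 * 8 ^ s) * (V * d) - V * a) / V ^ 2 :=
    div_nonneg (by linarith) (by positivity)
  linarith

/-- sign changes as isometries -/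
noncomputable def gj (b : Fin n → ℕ) (j : ℕ) : Eu (Fin n) ≃ₗᵢ[ℝ] Eu (Fin n) :=
  LinearIsometryEquiv.piLpCongrRight 2 fun i =>
    if b i = j then LinearIsometryEquiv.neg ℝ else LinearIsometryEquiv.refl ℝ ℝ

theorem gj_apply (j : ℕ) (x : Eu (Fin n)) (i : Fin n) :
    gj b j x i = if b i = j then -x i else x i := by
  unfold gj
  rw [LinearIsometryEquiv.piLpCongrRight_apply]
  simp only
  split_ifs <;> rfl

theorem gj_flip (j : ℕ) (y : Fin n → ℝ) :
    gj b j (WithLp.toLp 2 y) = WithLp.toLp 2 (flip b j y) := by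
  ext i
  rw [gj_apply]
  rfl

theorem blk (T : Eu (Fin n) →ₗ[ℝ] Eu (Fin n)) (hT : ∀ j x, T (gj b j x) = gj b j (T x)) {j : ℕ}
    {x y : Eu (Fin n)} (h : ∀ i, b i = j → x i = y i) : ∀ i, b i = j → T x i = T y i := by
  intro i hi
  have h1 : gj b j (x - y) = x - y := by
    ext k
    rw [gj_apply, PiLp.sub_apply]
    split_ifs with hk
    · rw [h k hk]
      ring
    · rfl
  have h2 := hT j (x - y)
  rw [h1] at h2
  have h3 := gj_apply (b := b) j (T (x - y)) i
  rw [← h2, if_pos hi, map_sub, PiLp.sub_apply] at h3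
  linarith

theorem ap_chain (hs1 : 1 ≤ s) (hs : ∀ j, (univ.filter fun i => b i = j).card ≤ s)
    (hK : IsCompact K) (hc : Chain b (co K)) (hv : volume K ≠ 0) :
    AP (CC s (4 * 8 ^ s)) (iW K) := by
  have ha := adm_iW hK hv
  obtain ⟨S, hS, hg⟩ := Pool.Agent.R751.MB.wht (Fin n) (iW K) ha
  have hin : ∀ j x, x ∈ K → gj b j x ∈ K := by
    intro j x hx
    have h1 := hc.flip j (WithLp.ofLp x) hx
    have h2 : WithLp.toLp 2 (flip b j (WithLp.ofLp x)) ∈ K := h1
    rw [← gj_flip] at h2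
    exact h2
  have hgg : ∀ j x, gj b j (gj b j x) = x := by
    intro j x
    ext i
    rw [gj_apply, gj_apply]
    split_ifs <;> ring
  have hgw : ∀ j x, iW K (gj b j x) = iW K x := by
    intro j x
    unfold iW
    by_cases hx : x ∈ K
    · rw [Set.indicator_of_mem hx, Set.indicator_of_mem (hin j x hx)]
    · rw [Set.indicator_of_notMem hx, Set.indicator_of_notMem]
      intro h1
      have h2 := hin j _ h1
      rw [hgg] at h2
      exact hx h2
  have hS1 : ∀ j x, S (gj b j x) = gj b j (S x) := fun j x => hg (gj b j) (hgw j) x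
  have hS2 : ∀ j x, S.symm (gj b j x) = gj b j (S.symm x) := by
    intro j x
    apply S.injective
    rw [S.apply_symm_apply, hS1, S.apply_symm_apply]
  -- the image
  obtain ⟨L, hL⟩ : ∃ L : Set (Eu (Fin n)), L = S '' K := ⟨_, rfl⟩
  have hLm : ∀ z, z ∈ L ↔ S.symm z ∈ K := by
    intro z
    rw [hL]
    constructor
    · rintro ⟨x, hx, rfl⟩
      rwa [S.symm_apply_apply]
    · intro h
      exact ⟨_, h, S.apply_symm_apply z⟩
  have hLc : IsCompact L := by
    rw [hL]
    exact hK.image S.continuous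
  have hLw : iW L = fun z => iW K (S.toLinearEquiv.symm z) := by
    funext z
    unfold iW
    by_cases hz : z ∈ L
    · rw [Set.indicator_of_mem hz, Set.indicator_of_mem]
      exact (hLm z).1 hz
    · rw [Set.indicator_of_notMem hz, Set.indicator_of_notMem]
      exact fun h => hz ((hLm z).2 h)
  have hLch : Chain b (co L) := by
    constructor
    · exact co_comp hLc
    · intro y hy y' hy' u v hu hv' huv
      have h1 : S.symm (WithLp.toLp 2 y) ∈ K := (hLm _).1 hy
      have h2 : S.symm (WithLp.toLp 2 y') ∈ K := (hLm _).1 hy'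
      have h3 : WithLp.ofLp (S.symm (WithLp.toLp 2 y)) ∈ co K := h1
      have h4 : WithLp.ofLp (S.symm (WithLp.toLp 2 y')) ∈ co K := h2
      have h5 := hc.conv h3 h4 hu hv' huv
      refine (hLm _).2 ?_
      have h6 : S.symm (WithLp.toLp 2 (u • y + v • y')) =
          u • S.symm (WithLp.toLp 2 y) + v • S.symm (WithLp.toLp 2 y') := by
        rw [← map_smul, ← map_smul, ← map_add]
        rfl
      rw [h6]
      exact h5
    · intro j y hy
      have h1 : S.symm (WithLp.toLp 2 y) ∈ K := (hLm _).1 hy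
      refine (hLm _).2 ?_
      rw [← gj_flip, hS2]
      exact hin j _ h1
    · intro j y hy y' hy' e
      have h1 : S.symm (WithLp.toLp 2 y) ∈ K := (hLm _).1 hy
      have h2 : S.symm (WithLp.toLp 2 y') ∈ K := (hLm _).1 hy'
      have hT : ∀ j x, (S.symm.toLinearEquiv.toLinearMap) (gj b j x) =
          gj b j ((S.symm.toLinearEquiv.toLinearMap) x) := hS2
      have h3 := hc.glue j (WithLp.ofLp (S.symm (WithLp.toLp 2 y))) h1
        (WithLp.ofLp (S.symm (WithLp.toLp 2 y'))) h2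
        (blk S.symm.toLinearEquiv.toLinearMap hT (x := WithLp.toLp 2 y) (y := WithLp.toLp 2 y') e)
      refine (hLm _).2 ?_
      have h4 : S.symm (WithLp.toLp 2 (glue b j y y')) = WithLp.toLp 2 (glue b j
          (WithLp.ofLp (S.symm (WithLp.toLp 2 y))) (WithLp.ofLp (S.symm (WithLp.toLp 2 y')))) := by
        ext i
        by_cases hi : b i ≤ j
        · have h5 := blk S.symm.toLinearEquiv.toLinearMap hT (j := b i)
            (x := WithLp.toLp 2 (glue b j y y')) (y := WithLp.toLp 2 y) (fun k hk => by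
              change (if b k ≤ j then y k else y' k) = y k
              rw [if_pos (by omega)]) i rfl
          change S.symm (WithLp.toLp 2 (glue b j y y')) i =
            (if b i ≤ j then S.symm (WithLp.toLp 2 y) i else S.symm (WithLp.toLp 2 y') i)
          rw [if_pos hi]
          exact h5
        · have h5 := blk S.symm.toLinearEquiv.toLinearMap hT (j := b i)
            (x := WithLp.toLp 2 (glue b j y y')) (y := WithLp.toLp 2 y') (fun k hk => by
              change (if b k ≤ j then y k else y' k) = y' k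
              rw [if_neg (by omega)]) i rfl
          change S.symm (WithLp.toLp 2 (glue b j y y')) i =
            (if b i ≤ j then S.symm (WithLp.toLp 2 y) i else S.symm (WithLp.toLp 2 y') i)
          rw [if_neg hi]
          exact h5
      rw [h4]
      exact h3
  have haL : Adm (iW L) := by
    rw [hLw]
    exact Pool.Agent.R751.MB.LinAux.adm_comp S.toLinearEquiv ha
  have hθ : ∀ θ : Eu (Fin n), VW (iW L) (fun x => ⟪x, θ⟫_ℝ) = ‖θ‖ ^ 2 := by
    intro θ
    rw [hLw, Pool.Agent.R751.MB.LinAux.VW_comp]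
    exact hS θ
  have h1 := Pool.Agent.R751.MB.lin (Fin n) (Fin n) _ S.symm.toLinearEquiv (iW L)
    (ap_iso hs1 hs hLc hLch haL hθ)
  have h2 : (fun z => iW L (S.symm.toLinearEquiv.symm z)) = iW K := by
    funext z
    rw [hLw]
    change iW K (S.symm (S z)) = iW K z
    rw [S.symm_apply_apply]
  rw [h2] at h1
  exact h1

end Pool.Agent.V7H40.CH
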