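import Pool.Agent.V7H40.CH.Ite

/-!
# Chain bodies: lower bound for the covariance
-/

set_option autoImplicit false

namespace Pool.Agent.V7H40.CH

open Finset MeasureTheory
open scoped ENNReal

variable {ι : Type} [Fintype ι] {b : ι → ℕ} {K : Set (ι → ℝ)} {s : ℕ}

theorem Chain.neg (h : Chain b K) {x : ι → ℝ} (hx : x ∈ K) : -x ∈ K := by
  have h1 := h.scale (fun _ => -1) (fun _ => by simp) hx
  convert h1 using 1
  funext i
  simp

/-- odd functions -/
theorem Chain.odd (h : Chain b K) (i : ι) : ∫ x in K, x i = 0 := by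
  have hm := h.comp.isClosed.measurableSet
  rw [← integral_indicator hm]
  have h1 := integral_neg_eq_self (μ := (volume : Measure (ι → ℝ)))
    (fun x => K.indicator (fun x => x i) x)
  have h2 : ∀ x, K.indicator (fun x => x i) (-x) = -K.indicator (fun x => x i) x := by
    intro x
    by_cases hx : x ∈ K
    · rw [Set.indicator_of_mem hx, Set.indicator_of_mem (h.neg hx), Pi.neg_apply]
    · rw [Set.indicator_of_notMem hx, Set.indicator_of_notMem, neg_zero]
      intro hx'
      exact hx (by simpa using h.neg hx')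
  simp only [h2, integral_neg] at h1
  linarith

theorem prod_low (hs : ∀ j, (univ.filter fun i => b i = j).card ≤ s) (r : ℕ) :
    1 / 64 ^ s ≤ ∏ i, (if b i = r then (1 / 2 : ℝ) else if b i = r + 1 then 1 / 4
      else if b i = r + 2 then 1 / 2 else 1) := by
  have h1 : ∏ i, (if b i = r ∨ b i = r + 1 ∨ b i = r + 2 then (1 / 4 : ℝ) else 1) ≤
      ∏ i, (if b i = r then (1 / 2 : ℝ) else if b i = r + 1 then 1 / 4
      else if b i = r + 2 then 1 / 2 else 1) := by
    refine prod_le_prod (fun i _ => ?_) fun i _ => ?_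
    · split_ifs <;> norm_num
    · by_cases e1 : b i = r
      · rw [if_pos (Or.inl e1), if_pos e1]
        norm_num
      · by_cases e2 : b i = r + 1
        · rw [if_pos (Or.inr (Or.inl e2)), if_neg e1, if_pos e2]
        · by_cases e3 : b i = r + 2
          · rw [if_pos (Or.inr (Or.inr e3)), if_neg e1, if_neg e2, if_pos e3]
            norm_num
          · rw [if_neg (by tauto), if_neg e1, if_neg e2, if_neg e3]
  refine le_trans ?_ h1
  rw [prod_ite, prod_const, prod_const_one, mul_one]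
  have hc : (univ.filter fun i => b i = r ∨ b i = r + 1 ∨ b i = r + 2).card ≤ 3 * s := by
    classical
    rw [filter_or, filter_or]
    refine (card_union_le _ _).trans ?_
    have h2 := hs r
    have h3 := hs (r + 1)
    have h4 := hs (r + 2)
    have h5 := card_union_le (univ.filter fun i => b i = r + 1) (univ.filter fun i => b i = r + 2)
    omega
  have h6 : (1 / 4 : ℝ) ^ (3 * s) = 1 / 64 ^ s := by
    rw [pow_mul, ← one_div_pow]
    norm_num
  rw [← h6]
  exact pow_le_pow_of_le_one (by norm_num) (by norm_num) hc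

theorem cov_aux (h : Chain b K) (hs : ∀ j, (univ.filter fun i => b i = j).card ≤ s)
    {x₀ : ι → ℝ} (hx₀ : x₀ ∈ K) {i₀ : ι} {r : ℕ} (hi : b i₀ = r + 1) :
    ∫⁻ x in K, ENNReal.ofReal (((x i₀ + x₀ i₀) / 4) ^ 2) ≤
      ENNReal.ofReal (64 ^ s) * ∫⁻ x in K, ENNReal.ofReal (x i₀ ^ 2) := by
  classical
  have hm := h.comp.isClosed.measurableSet
  obtain ⟨d, hd⟩ : ∃ d : ι → ℝ, d = fun i => (if b i = r then (1 / 2 : ℝ) else if b i = r + 1 then
    1 / 4 else if b i = r + 2 then 1 / 2 else 1) := ⟨_, rfl⟩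
  obtain ⟨c, hc⟩ : ∃ c : ι → ℝ, c = fun i => if b i = r + 1 then x₀ i / 4 else 0 := ⟨_, rfl⟩
  obtain ⟨f, hf⟩ : ∃ f : (ι → ℝ) →ₗ[ℝ] (ι → ℝ), f = Matrix.toLin' (Matrix.diagonal d) := ⟨_, rfl⟩
  have hfx : ∀ x i, f x i = d i * x i := by
    intro x i
    rw [hf, Matrix.toLin'_apply, Matrix.mulVec_diagonal]
  have hdet : LinearMap.det f = ∏ i, d i := by
    rw [hf, LinearMap.det_toLin', Matrix.det_diagonal]
  have hlow : 1 / 64 ^ s ≤ LinearMap.det f := by
    rw [hdet, hd]
    exact prod_low hs r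
  have hpos : 0 < LinearMap.det f := lt_of_lt_of_le (by positivity) hlow
  have hmap := Real.map_linearMap_volume_pi_eq_smul_volume_pi hpos.ne'
  have hfm : Measurable f := (LinearMap.continuous_of_finiteDimensional f).measurable
  obtain ⟨g, hg⟩ : ∃ g : (ι → ℝ) → ℝ≥0∞, g = fun x => ENNReal.ofReal (x i₀ ^ 2) := ⟨_, rfl⟩
  have hgm : Measurable g := by
    rw [hg]
    fun_prop
  have hin : ∀ x ∈ K, f x + c ∈ K := by
    intro x hx
    have h1 := h.conv hx hx₀ (by norm_num : (0 : ℝ) ≤ 1 / 2) (by norm_num : (0 : ℝ) ≤ 1 / 2)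
      (by norm_num)
    have h2 := h.mid r hx h1 hx
    convert h2 using 1
    funext i
    rw [Pi.add_apply, hfx, hd, hc]
    simp only [Pi.add_apply, Pi.smul_apply, smul_eq_mul]
    by_cases e1 : b i = r
    · rw [if_pos e1, if_neg (show ¬ b i = r + 1 by omega), if_pos (show b i ≤ r by omega),
        if_pos e1]
      ring
    · by_cases e2 : b i = r + 1
      · rw [if_neg e1, if_pos e2, if_pos e2, if_neg (show ¬ b i ≤ r by omega), if_pos e2]
        ring
      · by_cases e3 : b i = r + 2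
        · rw [if_neg e1, if_neg e2, if_pos e3, if_neg e2, if_neg (show ¬ b i ≤ r by omega),
            if_neg e2, if_pos e3]
          ring
        · rw [if_neg e1, if_neg e2, if_neg e3, if_neg e2, if_neg e1, if_neg e2, if_neg e3]
          split_ifs <;> ring
  have e1 : ∫⁻ x in K, ENNReal.ofReal (((x i₀ + x₀ i₀) / 4) ^ 2) ≤
      ∫⁻ x, K.indicator g (f x + c) := by
    rw [← lintegral_indicator hm]
    refine lintegral_mono fun x => ?_
    by_cases hx : x ∈ K
    · rw [Set.indicator_of_mem hx, Set.indicator_of_mem (hin x hx), hg]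
      have e2 : (f x + c) i₀ = (x i₀ + x₀ i₀) / 4 := by
        rw [Pi.add_apply, hfx, hd, hc]
        simp only
        rw [if_neg (show ¬ b i₀ = r by omega), if_pos hi, if_pos hi]
        ring
      change _ ≤ ENNReal.ofReal ((f x + c) i₀ ^ 2)
      rw [e2]
    · rw [Set.indicator_of_notMem hx]
      exact zero_le
  have hq : Measurable fun x => K.indicator g (x + c) :=
    (hgm.indicator hm).comp (measurable_id.add_const _)
  have e3 : ∫⁻ x, K.indicator g (f x + c) =
      ∫⁻ x, K.indicator g (x + c) ∂(Measure.map f volume) := by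
    rw [lintegral_map hq hfm]
  rw [e3, hmap, lintegral_smul_measure, lintegral_add_right_eq_self (fun x => K.indicator g x) c,
    smul_eq_mul, lintegral_indicator hm, hg] at e1
  refine e1.trans ?_
  gcongr
  rw [abs_of_nonneg (inv_nonneg.2 hpos.le), inv_le_comm₀ hpos (by positivity), ← one_div]
  exact hlow

theorem cov_low' (h : Chain b K) (hs : ∀ j, (univ.filter fun i => b i = j).card ≤ s)
    {x₀ : ι → ℝ} (hx₀ : x₀ ∈ K) {i₀ : ι} {r : ℕ} (hi : b i₀ = r + 1) :
    (volume K).toReal * x₀ i₀ ^ 2 ≤ 16 * 64 ^ s * ∫ x in K, x i₀ ^ 2 := by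
  have hK := h.comp
  have hV := hK.measure_lt_top (μ := (volume : Measure (ι → ℝ)))
  have i1 : IntegrableOn (fun x : ι → ℝ => x i₀) K :=
    (continuous_apply i₀).continuousOn.integrableOn_compact hK
  have i2 : IntegrableOn (fun x : ι → ℝ => x i₀ ^ 2) K :=
    ((continuous_apply i₀).pow 2).continuousOn.integrableOn_compact hK
  have i3 : IntegrableOn (fun x : ι → ℝ => ((x i₀ + x₀ i₀) / 4) ^ 2) K := by
    have hc : Continuous fun x : ι → ℝ => ((x i₀ + x₀ i₀) / 4) ^ 2 := by fun_prop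
    exact hc.continuousOn.integrableOn_compact hK
  have h1 := cov_aux h hs hx₀ hi
  rw [← ofReal_integral_eq_lintegral_ofReal i3 (Filter.Eventually.of_forall fun _ => sq_nonneg _),
    ← ofReal_integral_eq_lintegral_ofReal i2 (Filter.Eventually.of_forall fun _ => sq_nonneg _),
    ← ENNReal.ofReal_mul (by positivity), ENNReal.ofReal_le_ofReal_iff (mul_nonneg (by positivity)
      (integral_nonneg fun _ => sq_nonneg _))] at h1
  have h2 : ∫ x in K, ((x i₀ + x₀ i₀) / 4) ^ 2 = 1 / 16 * (∫ x in K, x i₀ ^ 2) +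
      (volume K).toReal * (x₀ i₀ ^ 2 / 16) := by
    have e1 : (fun x : ι → ℝ => ((x i₀ + x₀ i₀) / 4) ^ 2) =
        fun x => (1 / 16 * x i₀ ^ 2 + x₀ i₀ / 8 * x i₀) + x₀ i₀ ^ 2 / 16 := by
      funext x
      ring
    have c1 : IntegrableOn (fun x : ι → ℝ => 1 / 16 * x i₀ ^ 2) K := i2.const_mul _
    have c2 : IntegrableOn (fun x : ι → ℝ => x₀ i₀ / 8 * x i₀) K := i1.const_mul _
    have c3 : IntegrableOn (fun x : ι → ℝ => 1 / 16 * x i₀ ^ 2 + x₀ i₀ / 8 * x i₀) K := c1.add c2
    have c4 : IntegrableOn (fun _ : ι → ℝ => x₀ i₀ ^ 2 / 16) K := integrableOn_const hV.ne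
    rw [e1, integral_add c3 c4, integral_add c1 c2, integral_const_mul, integral_const_mul, h.odd,
      setIntegral_const, smul_eq_mul, measureReal_def]
    ring
  rw [h2] at h1
  have h3 : 0 ≤ ∫ x in K, x i₀ ^ 2 := integral_nonneg fun _ => sq_nonneg _
  linarith

theorem cov_low (h : Chain b K) (hs : ∀ j, (univ.filter fun i => b i = j).card ≤ s)
    {x₀ : ι → ℝ} (hx₀ : x₀ ∈ K) (i₀ : ι) :
    (volume K).toReal * x₀ i₀ ^ 2 ≤ 16 * 64 ^ s * ∫ x in K, x i₀ ^ 2 := by
  refine cov_low' (b := fun i => b i + 1) h.shift (fun a => ?_) hx₀ (i₀ := i₀) (r := b i₀) rfl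
  cases a with
  | zero => simp
  | succ a => simpa using hs a

end Pool.Agent.V7H40.CH
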