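import Mathlib

/-!
# Chain bodies: convex bodies with constraints of bounded range, invariant under the sign changes of
blocks
-/

set_option autoImplicit false

namespace Pool.Agent.V7H40.CH

open Finset MeasureTheory

variable {ι : Type} [Fintype ι] {b : ι → ℕ} {K : Set (ι → ℝ)}

/-- sign change of the block `j` -/
def flip (b : ι → ℕ) (j : ℕ) (x : ι → ℝ) : ι → ℝ := fun i => if b i = j then -x i else x i

/-- the first blocks of `x`, up to the block `j`, and the other blocks of `y` -/
def glue (b : ι → ℕ) (j : ℕ) (x y : ι → ℝ) : ι → ℝ := fun i => if b i ≤ j then x i else y i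

/-- chain bodies -/
structure Chain (b : ι → ℕ) (K : Set (ι → ℝ)) : Prop where
  comp : IsCompact K
  conv : Convex ℝ K
  flip : ∀ j, ∀ x ∈ K, flip b j x ∈ K
  glue : ∀ j, ∀ x ∈ K, ∀ y ∈ K, (∀ i, b i = j → x i = y i) → glue b j x y ∈ K

/-- multiplication of the blocks by numbers of absolute value at most one -/
theorem Chain.scale (h : Chain b K) (c : ℕ → ℝ) (hc : ∀ j, |c j| ≤ 1) {x : ι → ℝ} (hx : x ∈ K) :
    (fun i => c (b i) * x i) ∈ K := by
  classical
  have key : ∀ T : Finset ℕ, (fun i => (if b i ∈ T then c (b i) else 1) * x i) ∈ K := by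
    intro T
    induction T using Finset.induction_on with
    | empty => simpa using hx
    | insert j T hj ih =>
      have h1 := h.flip j _ ih
      have h2 := abs_le.1 (hc j)
      have h3 := h.conv ih h1 (by linarith : 0 ≤ (1 + c j) / 2) (by linarith : 0 ≤ (1 - c j) / 2)
        (by ring)
      convert h3 using 1
      funext i
      simp only [Pi.add_apply, Pi.smul_apply, smul_eq_mul, CH.flip, mem_insert]
      by_cases hij : b i = j
      · rw [if_pos (Or.inl hij), if_pos hij, if_neg (by rwa [hij]), hij]
        ring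
      · by_cases hT : b i ∈ T
        · rw [if_pos (Or.inr hT), if_neg hij, if_pos hT]
          ring
        · rw [if_neg (by tauto), if_neg hij, if_neg hT]
          ring
  have h1 := key (univ.image b)
  convert h1 using 1
  funext i
  rw [if_pos (mem_image_of_mem b (mem_univ i))]

/-- the blocks in a set -/
theorem Chain.zero (h : Chain b K) (p : ℕ → Prop) [DecidablePred p] {x : ι → ℝ} (hx : x ∈ K) :
    (fun i => if p (b i) then x i else 0) ∈ K := by
  have h1 := h.scale (fun j => if p j then 1 else 0) (fun j => by split_ifs <;> simp) hx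
  convert h1 using 1
  funext i
  split_ifs <;> simp

/-- the basic construction -/
theorem Chain.mid (h : Chain b K) (r : ℕ) {x y z : ι → ℝ} (hx : x ∈ K) (hy : y ∈ K) (hz : z ∈ K) :
    (fun i => if b i ≤ r then (if b i = r then x i / 2 else x i) else if b i = r + 1 then y i / 2
      else if b i = r + 2 then z i / 2 else z i) ∈ K := by
  have U1 := h.zero (fun j => j ≤ r) hx
  have U1' := h.zero (fun j => j < r) hx
  have U2 := h.zero (fun j => j = r + 1) hy
  have U3 := h.zero (fun j => r + 2 ≤ j) hz
  have U3' := h.zero (fun j => r + 3 ≤ j) hz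
  have U12 := h.glue r _ U1' _ U2 (fun i hi => by
    rw [if_neg (by omega), if_neg (by omega)])
  have U23 := h.glue (r + 2) _ U2 _ U3' (fun i hi => by
    rw [if_neg (by omega), if_neg (by omega)])
  have V1 := h.conv U1 U12 (by norm_num : (0 : ℝ) ≤ 1 / 2) (by norm_num : (0 : ℝ) ≤ 1 / 2)
    (by norm_num)
  have V3 := h.conv U3 U23 (by norm_num : (0 : ℝ) ≤ 1 / 2) (by norm_num : (0 : ℝ) ≤ 1 / 2)
    (by norm_num)
  have W := h.glue (r + 1) _ V1 _ V3 (fun i hi => by
    simp only [Pi.add_apply, Pi.smul_apply, smul_eq_mul, CH.glue]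
    rw [if_neg (show ¬ b i ≤ r by omega), if_neg (show ¬ b i ≤ r by omega), if_pos hi,
      if_neg (show ¬ r + 2 ≤ b i by omega), if_pos (show b i ≤ r + 2 by omega)])
  convert W using 1
  funext i
  simp only [Pi.add_apply, Pi.smul_apply, smul_eq_mul, CH.glue]
  rcases lt_trichotomy (b i) (r + 1) with h1 | h1 | h1
  · rw [if_pos (show b i ≤ r by omega), if_pos (show b i ≤ r + 1 by omega),
      if_pos (show b i ≤ r by omega), if_pos (show b i ≤ r by omega)]
    by_cases h2 : b i = r
    · rw [if_pos h2, if_neg (show ¬ b i < r by omega)]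
      ring
    · rw [if_neg h2, if_pos (show b i < r by omega)]
      ring
  · rw [if_neg (show ¬ b i ≤ r by omega), if_pos h1, if_pos (show b i ≤ r + 1 by omega),
      if_neg (show ¬ b i ≤ r by omega), if_neg (show ¬ b i ≤ r by omega), if_pos h1]
    ring
  · rw [if_neg (show ¬ b i ≤ r by omega), if_neg (show ¬ b i = r + 1 by omega),
      if_neg (show ¬ b i ≤ r + 1 by omega), if_pos (show r + 2 ≤ b i by omega)]
    by_cases h2 : b i = r + 2
    · rw [if_pos h2, if_pos (show b i ≤ r + 2 by omega), if_neg (show ¬ b i = r + 1 by omega)]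
      ring
    · rw [if_neg h2, if_neg (show ¬ b i ≤ r + 2 by omega), if_pos (show r + 3 ≤ b i by omega)]
      ring

end Pool.Agent.V7H40.CH
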