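import Pool.Agent.V7H40.CH.Def

/-!
# Chain bodies: averages over some of the coordinates
-/

set_option autoImplicit false

namespace Pool.Agent.V7H40.CH

open Finset MeasureTheory
open scoped ENNReal

/-- bounded measurable functions -/
def BM {X : Type} [MeasurableSpace X] (f : X → ℝ) : Prop := Measurable f ∧ ∃ B : ℝ, ∀ x, |f x| ≤ B

section bm

variable {X Y : Type} [MeasurableSpace X] [MeasurableSpace Y] {f g : X → ℝ}

theorem BM.mul (hf : BM f) (hg : BM g) : BM fun x => f x * g x := by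
  obtain ⟨B, hB⟩ := hf.2
  obtain ⟨C, hC⟩ := hg.2
  refine ⟨hf.1.mul hg.1, B * C, fun x => ?_⟩
  rw [abs_mul]
  exact mul_le_mul (hB x) (hC x) (abs_nonneg _) ((abs_nonneg _).trans (hB x))

theorem BM.add (hf : BM f) (hg : BM g) : BM fun x => f x + g x := by
  obtain ⟨B, hB⟩ := hf.2
  obtain ⟨C, hC⟩ := hg.2
  exact ⟨hf.1.add hg.1, B + C, fun x => (abs_add_le _ _).trans (add_le_add (hB x) (hC x))⟩

theorem BM.const (c : ℝ) : BM fun _ : X => c := ⟨measurable_const, |c|, fun _ => le_rfl⟩

theorem BM.smul (c : ℝ) (hf : BM f) : BM fun x => c * f x := (BM.const c).mul hf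

theorem BM.sq (hf : BM f) : BM fun x => f x ^ 2 := by
  have := hf.mul hf
  simpa only [pow_two] using this

theorem BM.comp {T : Y → X} (hf : BM f) (hT : Measurable T) : BM fun y => f (T y) := by
  obtain ⟨B, hB⟩ := hf.2
  exact ⟨hf.1.comp hT, B, fun y => hB _⟩

theorem BM.on {μ : Measure X} {K : Set X} (hf : BM f) (hK : μ K < ∞) : IntegrableOn f K μ := by
  obtain ⟨B, hB⟩ := hf.2
  exact Measure.integrableOn_of_bounded hK.ne hf.1.aestronglyMeasurable
    (Filter.Eventually.of_forall fun x => by rw [Real.norm_eq_abs]; exact hB x)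

theorem BM.ind {K : Set X} (hf : BM f) (hK : MeasurableSet K) : BM (K.indicator f) := by
  obtain ⟨B, hB⟩ := hf.2
  refine ⟨hf.1.indicator hK, B, fun x => ?_⟩
  by_cases hx : x ∈ K
  · rw [Set.indicator_of_mem hx]
    exact hB x
  · rw [Set.indicator_of_notMem hx, abs_zero]
    exact (abs_nonneg _).trans (hB x)

end bm

section split

variable {ι : Type} [Fintype ι] (p : ι → Prop) [DecidablePred p] {K : Set (ι → ℝ)}

/-- the splitting -/
def mk2 (y : {i // p i} → ℝ) (z : {i // ¬p i} → ℝ) : ι → ℝ :=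
  fun i => if h : p i then y ⟨i, h⟩ else z ⟨i, h⟩

/-- the remaining coordinates -/
def rest (x : ι → ℝ) : {i // ¬p i} → ℝ := fun i => x i

theorem symm_eq (q : ({i // p i} → ℝ) × ({i // ¬p i} → ℝ)) :
    (MeasurableEquiv.piEquivPiSubtypeProd (fun _ : ι => ℝ) p).symm q = mk2 p q.1 q.2 := rfl

theorem mk2_meas : Measurable fun q : ({i // p i} → ℝ) × ({i // ¬p i} → ℝ) => mk2 p q.1 q.2 :=
  (MeasurableEquiv.piEquivPiSubtypeProd (fun _ : ι => ℝ) p).symm.measurable

theorem rest_meas : Measurable (rest p) := by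
  unfold rest
  fun_prop

theorem rest_mk2 (y : {i // p i} → ℝ) (z : {i // ¬p i} → ℝ) : rest p (mk2 p y z) = z := by
  funext i
  unfold rest mk2
  rw [dif_neg i.2]

theorem mk2_rest (x : ι → ℝ) : mk2 p (fun i => x i) (rest p x) = x := by
  funext i
  unfold mk2 rest
  split_ifs <;> rfl

/-- Fubini -/
theorem fub {F : (ι → ℝ) → ℝ} (hF : Integrable F) :
    ∫ x, F x = ∫ z : {i // ¬p i} → ℝ, ∫ y : {i // p i} → ℝ, F (mk2 p y z) := by
  have hp := (volume_preserving_piEquivPiSubtypeProd (fun _ : ι => ℝ) p).symm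
  have h1 := hp.integral_comp' (g := F)
  rw [← h1]
  have h2 : Integrable (fun q : ({i // p i} → ℝ) × ({i // ¬p i} → ℝ) =>
      F ((MeasurableEquiv.piEquivPiSubtypeProd (fun _ : ι => ℝ) p).symm q)) :=
    (hp.integrable_comp_emb (MeasurableEquiv.measurableEmbedding _)).2 hF
  exact integral_prod_symm _ h2

variable {p}

theorem sec_comp (hK : IsCompact K) (z : {i // ¬p i} → ℝ) : IsCompact {y | mk2 p y z ∈ K} := by
  have hc : Continuous fun y : {i // p i} → ℝ => mk2 p y z := by
    refine continuous_pi fun i => ?_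
    unfold mk2
    by_cases h : p i
    · simp only [h, dite_true]
      fun_prop
    · simp only [h, dite_false]
      fun_prop
  have h1 : {y | mk2 p y z ∈ K} ⊆ (fun x (i : {i // p i}) => x i) '' K := by
    intro y hy
    refine ⟨mk2 p y z, hy, ?_⟩
    funext i
    change (if h : p (i : ι) then y ⟨i, h⟩ else z ⟨i, h⟩) = y i
    rw [dif_pos i.2]
  have hc2 : Continuous fun (x : ι → ℝ) (i : {i // p i}) => x i := by fun_prop
  exact (hK.image hc2).of_isClosed_subset (hK.isClosed.preimage hc) h1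

variable (p)

/-- partial integrals -/
noncomputable def NN (K : Set (ι → ℝ)) (f : (ι → ℝ) → ℝ) (z : {i // ¬p i} → ℝ) : ℝ :=
  ∫ y : {i // p i} → ℝ, K.indicator f (mk2 p y z)

variable {p}

theorem NN_meas (hK : IsCompact K) {f : (ι → ℝ) → ℝ} (hf : BM f) : Measurable (NN p K f) := by
  have h1 : Measurable fun q : ({i // p i} → ℝ) × ({i // ¬p i} → ℝ) =>
      K.indicator f (mk2 p q.1 q.2) :=
    (hf.ind hK.isClosed.measurableSet).1.comp (mk2_meas p)
  exact (StronglyMeasurable.integral_prod_left' (μ := (volume : Measure ({i // p i} → ℝ)))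
    h1.stronglyMeasurable).measurable

theorem sec_int (hK : IsCompact K) {f : (ι → ℝ) → ℝ} (hf : BM f) (z : {i // ¬p i} → ℝ) :
    Integrable fun y : {i // p i} → ℝ => K.indicator f (mk2 p y z) := by
  have h1 : (fun y : {i // p i} → ℝ => K.indicator f (mk2 p y z)) =
      {y | mk2 p y z ∈ K}.indicator fun y => f (mk2 p y z) := by
    funext y
    by_cases hy : mk2 p y z ∈ K
    · rw [Set.indicator_of_mem hy, Set.indicator_of_mem (show y ∈ {y | mk2 p y z ∈ K} from hy)]
    · rw [Set.indicator_of_notMem hy, Set.indicator_of_notMem (show y ∉ {y | mk2 p y z ∈ K} from hy)]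
  rw [h1, integrable_indicator_iff (sec_comp hK z).isClosed.measurableSet]
  have hm : Measurable fun y : {i // p i} → ℝ => mk2 p y z :=
    (mk2_meas p).comp (measurable_id.prodMk measurable_const)
  exact (hf.comp hm).on (sec_comp hK z).measure_lt_top

/-- the integrals over `K` -/
theorem int_K (hK : IsCompact K) {f : (ι → ℝ) → ℝ} (hf : BM f) :
    ∫ x in K, f x = ∫ z, NN p K f z := by
  rw [← integral_indicator hK.isClosed.measurableSet, fub p]
  · rfl
  · rw [integrable_indicator_iff hK.isClosed.measurableSet]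
    exact hf.on hK.measure_lt_top

theorem NN_int (hK : IsCompact K) {f : (ι → ℝ) → ℝ} (hf : BM f) : Integrable (NN p K f) := by
  have hp := (volume_preserving_piEquivPiSubtypeProd (fun _ : ι => ℝ) p).symm
  have hF : Integrable (K.indicator f) := by
    rw [integrable_indicator_iff hK.isClosed.measurableSet]
    exact hf.on hK.measure_lt_top
  have h2 : Integrable (fun q : ({i // p i} → ℝ) × ({i // ¬p i} → ℝ) =>
      K.indicator f ((MeasurableEquiv.piEquivPiSubtypeProd (fun _ : ι => ℝ) p).symm q)) :=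
    (hp.integrable_comp_emb (MeasurableEquiv.measurableEmbedding _)).2 hF
  exact h2.integral_prod_right

theorem NN_mono (hK : IsCompact K) {f g : (ι → ℝ) → ℝ} (hf : BM f) (hg : BM g)
    (h : ∀ x ∈ K, f x ≤ g x) (z : {i // ¬p i} → ℝ) : NN p K f z ≤ NN p K g z := by
  refine integral_mono (sec_int hK hf z) (sec_int hK hg z) fun y => ?_
  by_cases hy : mk2 p y z ∈ K
  · simp only [Set.indicator_of_mem hy]
    exact h _ hy
  · simp only [Set.indicator_of_notMem hy]
    exact le_rfl

theorem NN_mul {f g : (ι → ℝ) → ℝ}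
    (h : ∀ u v, (∀ i, ¬p i → u i = v i) → g u = g v) (z : {i // ¬p i} → ℝ) :
    NN p K (fun x => f x * g x) z = NN p K f z * g (mk2 p 0 z) := by
  unfold NN
  rw [← integral_mul_const]
  congr 1
  funext y
  by_cases hy : mk2 p y z ∈ K
  · rw [Set.indicator_of_mem hy, Set.indicator_of_mem hy]
    congr 1
    refine h _ _ fun i hi => ?_
    unfold mk2
    rw [dif_neg hi, dif_neg hi]
  · rw [Set.indicator_of_notMem hy, Set.indicator_of_notMem hy, zero_mul]

theorem NN_bd (hK : IsCompact K) {f : (ι → ℝ) → ℝ} (hf : BM f) {B : ℝ} (hB : ∀ x, |f x| ≤ B)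
    (z : {i // ¬p i} → ℝ) : |NN p K f z| ≤ B * NN p K (fun _ => 1) z := by
  have h1 := NN_mono (p := p) hK hf (BM.const B) (fun x _ => (le_abs_self _).trans (hB x)) z
  have h2 := NN_mono (p := p) hK (BM.const (-B)) hf
    (fun x _ => by have := neg_abs_le (f x); have := hB x; linarith) z
  have h3 : ∀ c : ℝ, NN p K (fun _ => c) z = c * NN p K (fun _ => 1) z := by
    intro c
    unfold NN
    rw [← integral_const_mul]
    congr 1
    funext y
    by_cases hy : mk2 p y z ∈ K
    · rw [Set.indicator_of_mem hy, Set.indicator_of_mem hy, mul_one]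
    · rw [Set.indicator_of_notMem hy, Set.indicator_of_notMem hy, mul_zero]
  rw [h3] at h1 h2
  rw [abs_le]
  constructor <;> linarith

theorem NN_one_nonneg (z : {i // ¬p i} → ℝ) : 0 ≤ NN p K (fun _ => 1) z :=
  integral_nonneg fun _ => Set.indicator_nonneg (fun _ _ => zero_le_one) _

/-- conditional expectation -/
noncomputable def CE (p : ι → Prop) [DecidablePred p] (K : Set (ι → ℝ)) (f : (ι → ℝ) → ℝ)
    (x : ι → ℝ) : ℝ := NN p K f (rest p x) / NN p K (fun _ => 1) (rest p x)

theorem CE_dep (f : (ι → ℝ) → ℝ) {u v : ι → ℝ} (h : ∀ i, ¬p i → u i = v i) :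
    CE p K f u = CE p K f v := by
  have : rest p u = rest p v := funext fun i => h i i.2
  unfold CE
  rw [this]

theorem CE_mul (hK : IsCompact K) {f : (ι → ℝ) → ℝ} (hf : BM f) (z : {i // ¬p i} → ℝ) :
    CE p K f (mk2 p 0 z) * NN p K (fun _ => 1) z = NN p K f z := by
  unfold CE
  rw [rest_mk2]
  by_cases h : NN p K (fun _ => 1) z = 0
  · obtain ⟨B, hB⟩ := hf.2
    have h1 := NN_bd (p := p) hK hf hB z
    rw [h, mul_zero] at h1
    have h2 : NN p K f z = 0 := abs_eq_zero.1 (le_antisymm h1 (abs_nonneg _))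
    rw [h, h2]
    simp
  · rw [div_mul_cancel₀ _ h]

theorem CE_bm (hK : IsCompact K) {f : (ι → ℝ) → ℝ} (hf : BM f) : BM (CE p K f) := by
  obtain ⟨B, hB⟩ := hf.2
  refine ⟨?_, B, fun x => ?_⟩
  · exact ((NN_meas hK hf).comp (rest_meas p)).div
      ((NN_meas hK (BM.const 1)).comp (rest_meas p))
  · have h1 := NN_bd (p := p) hK hf hB (rest p x)
    have h0 := NN_one_nonneg (K := K) (rest p x)
    have hB0 : 0 ≤ B := (abs_nonneg _).trans (hB x)
    unfold CE
    rw [abs_div, abs_of_nonneg h0]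
    rcases h0.eq_or_lt with h2 | h2
    · rw [← h2, div_zero]
      exact hB0
    · rw [div_le_iff₀ h2]
      exact h1

/-- the defining property -/
theorem CE_int (hK : IsCompact K) {f g : (ι → ℝ) → ℝ} (hf : BM f) (hg : BM g)
    (h : ∀ u v, (∀ i, ¬p i → u i = v i) → g u = g v) :
    ∫ x in K, CE p K f x * g x = ∫ x in K, f x * g x := by
  rw [int_K (p := p) hK ((CE_bm hK hf).mul hg), int_K (p := p) hK (hf.mul hg)]
  congr 1
  funext z
  rw [NN_mul (f := f) h, ← CE_mul hK hf z]
  have h2 : ∀ u v, (∀ i, ¬p i → u i = v i) →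
      (fun x => CE p K f x * g x) u = (fun x => CE p K f x * g x) v := fun u v huv => by
    change CE p K f u * g u = CE p K f v * g v
    rw [CE_dep f huv, h u v huv]
  have h3 := NN_mul (K := K) (f := fun _ => 1) h2 z
  simp only [one_mul] at h3
  rw [h3]
  ring

/-- sections -/
theorem CE_sec (hK : IsCompact K) {f η : (ι → ℝ) → ℝ} (hf : BM f) (hη : BM η)
    (hη0 : ∀ x, 0 ≤ η x) {C : ℝ} (hC : 0 ≤ C)
    (H : ∀ z, NN p K (fun _ => 1) z * NN p K (fun x => f x ^ 2) z ≤ NN p K f z ^ 2 +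
      C * (NN p K (fun _ => 1) z * NN p K η z)) :
    ∫ x in K, f x ^ 2 ≤ (∫ x in K, CE p K f x ^ 2) + C * ∫ x in K, η x := by
  rw [int_K (p := p) hK hf.sq, int_K (p := p) hK (CE_bm hK hf).sq, int_K (p := p) hK hη,
    ← integral_const_mul, ← integral_add (NN_int hK (CE_bm hK hf).sq)
      ((NN_int hK hη).const_mul C)]
  refine integral_mono (NN_int hK hf.sq)
    ((NN_int hK (CE_bm hK hf).sq).add ((NN_int hK hη).const_mul C)) fun z => ?_
  have h2 : ∀ u v, (∀ i, ¬p i → u i = v i) →
      (fun x => CE p K f x ^ 2) u = (fun x => CE p K f x ^ 2) v := fun u v huv => by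
    change CE p K f u ^ 2 = CE p K f v ^ 2
    rw [CE_dep f huv]
  have h3 := NN_mul (K := K) (f := fun _ => 1) h2 z
  simp only [one_mul] at h3
  simp only [h3]
  have h4 := CE_mul (p := p) hK hf z
  have h5 := H z
  have h0 := NN_one_nonneg (K := K) z
  have hη1 : 0 ≤ NN p K η z := integral_nonneg fun _ => Set.indicator_nonneg (fun _ _ => hη0 _) _
  rcases h0.eq_or_lt with h6 | h6
  · obtain ⟨B, hB⟩ := hf.sq.2
    have h7 := NN_bd (p := p) hK hf.sq hB z
    rw [← h6, mul_zero] at h7
    have h8 : NN p K (fun x => f x ^ 2) z = 0 := abs_eq_zero.1 (le_antisymm h7 (abs_nonneg _))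
    rw [h8, ← h6]
    have := mul_nonneg hC hη1
    simpa using this
  · have h9 : NN p K (fun _ => 1) z * NN p K (fun x => f x ^ 2) z ≤ NN p K (fun _ => 1) z *
        (NN p K (fun _ => 1) z * CE p K f (mk2 p 0 z) ^ 2 + C * NN p K η z) := by
      refine h5.trans (le_of_eq ?_)
      rw [← h4]
      ring
    exact le_of_mul_le_mul_left h9 h6

end split

end Pool.Agent.V7H40.CH
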