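import Pool.Agent.V7H40.CH.Rec

/-!
# Chain bodies: the inequality with a constant which does not depend on the number of blocks
-/

set_option autoImplicit false

namespace Pool.Agent.V7H40.CH

open Finset MeasureTheory
open scoped ENNReal

theorem Poi.mono {ι : Type} [Fintype ι] [DecidableEq ι] {K : Set (ι → ℝ)} {C C' : ℝ} (h : C ≤ C')
    (hp : Poi C K) : Poi C' K := by
  intro f hf
  refine (hp f hf).trans ?_
  have h1 : 0 ≤ ∫ x in K, eta f x := integral_nonneg fun x => eta_nonneg f x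
  have h2 : 0 ≤ (volume K).toReal * ∫ x in K, eta f x := mul_nonneg ENNReal.toReal_nonneg h1
  have h3 := mul_le_mul_of_nonneg_right h h2
  linarith

theorem PP.mono {s N : ℕ} {R C C' : ℝ} (h : C ≤ C') (hp : PP s R N C) : PP s R N C' :=
  fun ι _ _ b K h1 h2 h3 lo h4 => (hp ι b K h1 h2 h3 lo h4).mono h

theorem base {s N : ℕ} {R : ℝ} : PP s R N (2 * R ^ 2 * (s * N : ℕ) * 2 ^ (s * N)) := by
  intro ι _ _ b K h hs hR lo hb
  have hcard : Fintype.card ι ≤ s * N := by
    rw [← card_univ]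
    have h1 : (univ : Finset ι).card ≤ s * ((univ : Finset ι).image b).card :=
      card_le_mul_card_image _ s fun a _ => hs a
    have h2 : ((univ : Finset ι).image b).card ≤ N := by
      have h3 : (univ : Finset ι).image b ⊆ Ioc lo (lo + N) := by
        intro a ha
        obtain ⟨i, _, rfl⟩ := mem_image.1 ha
        exact mem_Ioc.2 (hb i)
      have h4 := card_le_card h3
      rw [Nat.card_Ioc] at h4
      omega
    exact h1.trans (Nat.mul_le_mul_left s h2)
  refine (poi_seg h.comp h.conv hR).mono ?_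
  have h5 : (Fintype.card ι : ℝ) ≤ (s * N : ℕ) := by exact_mod_cast hcard
  have h6 : (2 : ℝ) ^ Fintype.card ι ≤ 2 ^ (s * N) := pow_le_pow_right₀ (by norm_num) hcard
  gcongr

theorem th_pow (s ρ : ℕ) : th s ^ (32 ^ s * ρ) ≤ 1 / (1 + ρ) := by
  have h0 : (1 : ℝ) ≤ 32 ^ s := one_le_pow₀ (by norm_num)
  have h1 : th s ≤ Real.exp (-(1 / 32 ^ s)) := by
    unfold th
    have := Real.add_one_le_exp (-(1 / 32 ^ s : ℝ))
    linarith
  have h2 : 0 ≤ th s := by
    unfold th
    have : 1 / (32 : ℝ) ^ s ≤ 1 := by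
      rw [div_le_one (by positivity)]
      exact h0
    linarith
  have h3 : (Real.exp (-(1 / 32 ^ s))) ^ (32 ^ s * ρ) = Real.exp (-ρ) := by
    rw [← Real.exp_nat_mul]
    congr 1
    push_cast
    field_simp
  have h4 : Real.exp (-(ρ : ℝ)) ≤ 1 / (1 + ρ) := by
    rw [Real.exp_neg, one_div]
    refine inv_anti₀ (by positivity) ?_
    have := Real.add_one_le_exp (ρ : ℝ)
    linarith
  calc th s ^ (32 ^ s * ρ) ≤ (Real.exp (-(1 / 32 ^ s))) ^ (32 ^ s * ρ) := pow_le_pow_left₀ h2 h1 _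
    _ = Real.exp (-ρ) := h3
    _ ≤ 1 / (1 + ρ) := h4

/-- the constant for the short chains -/
noncomputable def C0 (s : ℕ) (R : ℝ) : ℝ :=
  2 * R ^ 2 * (s * (16 * 32 ^ s * 10 ^ 4) : ℕ) * 2 ^ (s * (16 * 32 ^ s * 10 ^ 4))

theorem C0_nonneg (s : ℕ) (R : ℝ) : 0 ≤ C0 s R := by
  unfold C0
  positivity

theorem seq {s : ℕ} (hs1 : 1 ≤ s) (R : ℝ) (j : ℕ) :
    PP s R (16 * 32 ^ s * (j + 10) ^ 4) (C0 s R * (2 * (j + 1) / (j + 2)) ^ 2) := by
  induction j with
  | zero =>
    refine (base (s := s) (N := 16 * 32 ^ s * 10 ^ 4) (R := R)).mono ?_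
    unfold C0
    norm_num
  | succ j ih =>
    obtain ⟨ρ, hρ⟩ : ∃ ρ : ℕ, ρ = (j + 2) ^ 2 := ⟨_, rfl⟩
    obtain ⟨κ, hκ⟩ : ∃ κ : ℕ, κ = 32 ^ s := ⟨_, rfl⟩
    have hκ1 : 1 ≤ κ := by rw [hκ]; exact Nat.one_le_pow _ _ (by norm_num)
    have hρ1 : 1 ≤ ρ := by rw [hρ]; exact Nat.one_le_pow _ _ (by omega)
    have hρ0 : (0 : ℝ) < ρ := by exact_mod_cast hρ1
    have hC : 0 ≤ C0 s R * (2 * (j + 1) / (j + 2)) ^ 2 :=
      mul_nonneg (C0_nonneg s R) (by positivity)
    have hp := th_pow s ρ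
    have hlt : th s ^ (32 ^ s * ρ) < 1 := by
      refine hp.trans_lt ?_
      rw [div_lt_one (by positivity)]
      linarith
    have h1 := step (N := 16 * 32 ^ s * (j + 1 + 10) ^ 4) (k := ρ) (m := 32 ^ s * ρ) hs1 hC hρ1 ih (by
      rw [← hκ, hρ]
      have e1 : 32 * (j + 10) ^ 4 = 16 * (j + 11) ^ 4 + 2 + 4 * (j + 2) ^ 4 +
          (12 * j ^ 4 + 544 * j ^ 3 + 7488 * j ^ 2 + 42688 * j + 85678) := by ring
      have e2 : 16 * κ * (j + 1 + 10) ^ 4 + 2 * κ + 4 * (κ * (j + 2) ^ 2) * (j + 2) ^ 2 +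
          κ * (12 * j ^ 4 + 544 * j ^ 3 + 7488 * j ^ 2 + 42688 * j + 85678) =
          2 * (16 * κ * (j + 10) ^ 4) := by
        have e3 : 2 * (16 * κ * (j + 10) ^ 4) = κ * (32 * (j + 10) ^ 4) := by ring
        rw [e3, e1]
        ring
      have e4 : 0 ≤ κ * (12 * j ^ 4 + 544 * j ^ 3 + 7488 * j ^ 2 + 42688 * j + 85678) := Nat.zero_le _
      linarith) hlt
    refine h1.mono ?_
    have h2 : (ρ : ℝ) / (1 + ρ) ≤ 1 - th s ^ (32 ^ s * ρ) := by
      have e : (ρ : ℝ) / (1 + ρ) = 1 - 1 / (1 + ρ) := by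
        field_simp
        ring
      rw [e]
      linarith
    have h3 : C0 s R * (2 * (j + 1) / (j + 2)) ^ 2 * (1 + 1 / ρ) / (1 - th s ^ (32 ^ s * ρ)) ≤
        C0 s R * (2 * (j + 1) / (j + 2)) ^ 2 * (1 + 1 / ρ) / (ρ / (1 + ρ)) :=
      div_le_div_of_nonneg_left (mul_nonneg hC (by positivity)) (by positivity) h2
    refine h3.trans ?_
    have h4 : C0 s R * (2 * (j + 1) / (j + 2)) ^ 2 * (1 + 1 / ρ) / (ρ / (1 + ρ)) =
        C0 s R * (2 * ((j + 1) / (j + 2) * (1 + 1 / ρ))) ^ 2 := by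
      field_simp
      ring
    rw [h4]
    refine mul_le_mul_of_nonneg_left ?_ (C0_nonneg s R)
    have h5 : ((j : ℝ) + 1) / (j + 2) * (1 + 1 / ρ) ≤ (j + 2) / (j + 3) := by
      rw [hρ]
      push_cast
      rw [show ((j : ℝ) + 1) / (j + 2) * (1 + 1 / (j + 2) ^ 2) =
        (j + 1) * ((j + 2) ^ 2 + 1) / (j + 2) ^ 3 by field_simp, div_le_div_iff₀ (by positivity)
        (by positivity)]
      nlinarith
    have h6 : 2 * (((j : ℝ) + 1) / (j + 2) * (1 + 1 / ρ)) ≤
        2 * (((j + 1 : ℕ) : ℝ) + 1) / (((j + 1 : ℕ) : ℝ) + 2) := by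
      push_cast
      have e : 2 * ((j : ℝ) + 1 + 1) / (j + 1 + 2) = 2 * ((j + 2) / (j + 3)) := by
        rw [mul_div_assoc]
        congr 2 <;> ring
      rw [e]
      linarith
    exact pow_le_pow_left₀ (by positivity) h6 2

/-- the final constant -/
noncomputable def CC (s : ℕ) (R : ℝ) : ℝ := 4 * C0 s R

theorem CC_nonneg (s : ℕ) (R : ℝ) : 0 ≤ CC s R := mul_nonneg (by norm_num) (C0_nonneg s R)

section

variable {ι : Type} [Fintype ι] {b : ι → ℕ} {K : Set (ι → ℝ)} {s : ℕ}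

theorem Chain.shift (h : Chain b K) : Chain (fun i => b i + 1) K := by
  constructor
  · exact h.comp
  · exact h.conv
  · intro j x hx
    cases j with
    | zero =>
      have : CH.flip (fun i => b i + 1) 0 x = x := by
        funext i
        simp [CH.flip]
      rw [this]
      exact hx
    | succ j =>
      have : CH.flip (fun i => b i + 1) (j + 1) x = CH.flip b j x := by
        funext i
        simp [CH.flip]
      rw [this]
      exact h.flip j x hx
  · intro j x hx y hy e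
    cases j with
    | zero =>
      have : CH.glue (fun i => b i + 1) 0 x y = y := by
        funext i
        simp [CH.glue]
      rw [this]
      exact hy
    | succ j =>
      have : CH.glue (fun i => b i + 1) (j + 1) x y = CH.glue b j x y := by
        funext i
        simp [CH.glue]
      rw [this]
      exact h.glue j x hx y hy fun i hi => e i (by rw [hi])

theorem Chain.poi [DecidableEq ι] (h : Chain b K) (hs1 : 1 ≤ s)
    (hs : ∀ j, (univ.filter fun i => b i = j).card ≤ s) {R : ℝ}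
    (hR : ∀ x ∈ K, ∀ i, |x i| ≤ R) : Poi (CC s R) K := by
  obtain ⟨j, hj⟩ : ∃ j : ℕ, ∀ i, b i ≤ j := ⟨univ.sup b, fun i => le_sup (mem_univ i)⟩
  have h1 := seq hs1 R j ι (fun i => b i + 1) K h.shift (fun a => ?_) hR 0 (fun i => ⟨by omega, ?_⟩)
  · refine h1.mono ?_
    unfold CC
    rw [mul_comm]
    refine mul_le_mul_of_nonneg_right ?_ (C0_nonneg s R)
    have h2 : (2 * ((j : ℝ) + 1) / (j + 2)) ≤ 2 := by
      rw [div_le_iff₀ (by positivity)]
      linarith
    have h3 : 0 ≤ (2 * ((j : ℝ) + 1) / (j + 2)) := by positivity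
    nlinarith
  · cases a with
    | zero => simp
    | succ a => simpa using hs a
  · have h4 : 1 ≤ 32 ^ s := Nat.one_le_pow _ _ (by norm_num)
    have h5 : j + 10 ≤ (j + 10) ^ 4 := Nat.le_self_pow (by norm_num) _
    have h6 : (j + 10) ^ 4 ≤ 16 * 32 ^ s * (j + 10) ^ 4 := by
      have : 1 ≤ 16 * 32 ^ s := by omega
      nlinarith
    have := hj i
    omega

end

end Pool.Agent.V7H40.CH
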