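import Mathlib

/-!
# Chain bodies: the minorization
-/

set_option autoImplicit false

namespace Pool.Agent.V7H40.CH

open MeasureTheory Finset
open scoped ENNReal Pointwise

section pack

variable {κ : Type} [Fintype κ]

theorem vol_half (F : Set (κ → ℝ)) :
    volume F = 2 ^ (Fintype.card κ) * volume ((1 / 2 : ℝ) • F) := by
  rw [Measure.addHaar_smul, Module.finrank_pi, abs_of_nonneg (by positivity), ← mul_assoc]
  have h : (2 : ℝ≥0∞) ^ (Fintype.card κ) * ENNReal.ofReal ((1 / 2) ^ (Fintype.card κ)) = 1 := by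
    rw [ENNReal.ofReal_pow (by norm_num), ← mul_pow]
    have : (2 : ℝ≥0∞) * ENNReal.ofReal (1 / 2) = 1 := by
      rw [show (2 : ℝ≥0∞) = ENNReal.ofReal 2 by simp, ← ENNReal.ofReal_mul (by norm_num)]
      norm_num
    rw [this, one_pow]
  rw [h, one_mul]

/-- intersections of symmetric convex sets -/
theorem pack {F F' P : Set (κ → ℝ)} (hF : MeasurableSet F) (hF' : MeasurableSet F')
    (hP : MeasurableSet P) (cF : Convex ℝ F) (cF' : Convex ℝ F') (cP : Convex ℝ P)
    (sF : ∀ x ∈ F, -x ∈ F) (sF' : ∀ x ∈ F', -x ∈ F') (h1 : F ⊆ P) (h2 : F' ⊆ P) :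
    volume F * volume F' ≤ 4 ^ (Fintype.card κ) * volume P * volume (F ∩ F') := by
  obtain ⟨G, hG⟩ : ∃ G : Set (κ → ℝ), G = (1 / 2 : ℝ) • F := ⟨_, rfl⟩
  obtain ⟨G', hG'⟩ : ∃ G' : Set (κ → ℝ), G' = (1 / 2 : ℝ) • F' := ⟨_, rfl⟩
  have mG : MeasurableSet G := by
    rw [hG]
    exact hF.const_smul₀ (1 / 2 : ℝ)
  have mG' : MeasurableSet G' := by
    rw [hG']
    exact hF'.const_smul₀ (1 / 2 : ℝ)
  have memG : ∀ x ∈ G, ∃ f ∈ F, x = (1 / 2 : ℝ) • f := by
    intro x hx
    rw [hG] at hx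
    obtain ⟨f, hf, rfl⟩ := hx
    exact ⟨f, hf, rfl⟩
  have memG' : ∀ x ∈ G', ∃ f ∈ F', x = (1 / 2 : ℝ) • f := by
    intro x hx
    rw [hG'] at hx
    obtain ⟨f, hf, rfl⟩ := hx
    exact ⟨f, hf, rfl⟩
  have e1 : ∫⁻ u, volume (G ∩ {x | x - u ∈ G'}) = volume G * volume G' := by
    have e2 : ∀ u, volume (G ∩ {x | x - u ∈ G'}) =
        ∫⁻ x, G.indicator 1 x * G'.indicator (1 : (κ → ℝ) → ℝ≥0∞) (x - u) := by
      intro u
      have mS : MeasurableSet (G ∩ {x | x - u ∈ G'}) :=
        mG.inter ((measurable_id.sub_const u) mG')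
      rw [← lintegral_indicator_one mS]
      congr 1
      funext x
      by_cases h3 : x ∈ G
      · by_cases h4 : x - u ∈ G'
        · rw [Set.indicator_of_mem (show x ∈ G ∩ {x | x - u ∈ G'} from ⟨h3, h4⟩),
            Set.indicator_of_mem h3, Set.indicator_of_mem h4]
          simp
        · rw [Set.indicator_of_notMem (fun h => h4 h.2), Set.indicator_of_notMem h4, mul_zero]
      · rw [Set.indicator_of_notMem (fun h => h3 h.1), Set.indicator_of_notMem h3, zero_mul]
    simp only [e2]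
    have hm : Measurable fun q : (κ → ℝ) × (κ → ℝ) =>
        G.indicator 1 q.2 * G'.indicator (1 : (κ → ℝ) → ℝ≥0∞) (q.2 - q.1) := by
      refine Measurable.mul ((measurable_one.indicator mG).comp measurable_snd) ?_
      exact (measurable_one.indicator mG').comp (measurable_snd.sub measurable_fst)
    rw [lintegral_lintegral_swap hm.aemeasurable]
    have e3 : ∀ x : κ → ℝ, ∫⁻ u, G.indicator 1 x * G'.indicator (1 : (κ → ℝ) → ℝ≥0∞) (x - u) =
        G.indicator 1 x * volume G' := by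
      intro x
      have mu : Measurable fun u : κ → ℝ => G'.indicator (1 : (κ → ℝ) → ℝ≥0∞) (x - u) :=
        (measurable_one.indicator mG').comp (measurable_const.sub measurable_id)
      rw [lintegral_const_mul _ mu]
      congr 1
      rw [lintegral_sub_left_eq_self (fun u => G'.indicator (1 : (κ → ℝ) → ℝ≥0∞) u) x,
        lintegral_indicator_one mG']
    simp only [e3]
    rw [lintegral_mul_const _ (measurable_one.indicator mG), lintegral_indicator_one mG]
  have e4 : ∀ u, volume (G ∩ {x | x - u ∈ G'}) ≤ P.indicator (fun _ => volume (F ∩ F')) u := by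
    intro u
    rcases Set.eq_empty_or_nonempty (G ∩ {x | x - u ∈ G'}) with h3 | ⟨v, hv, hvu⟩
    · rw [h3, measure_empty]
      exact zero_le
    · obtain ⟨f, hf, hvf⟩ := memG v hv
      obtain ⟨f', hf', hvf'⟩ := memG' (v - u) hvu
      have hu : u ∈ P := by
        have h4 : u = (1 / 2 : ℝ) • f + (1 / 2 : ℝ) • (-f') := by
          rw [smul_neg, ← hvf, ← hvf']
          abel
        rw [h4]
        exact cP (h1 hf) (h2 (sF' _ hf')) (by norm_num) (by norm_num) (by norm_num)
      rw [Set.indicator_of_mem hu]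
      have h5 : G ∩ {x | x - u ∈ G'} ⊆ (fun x => x + (-v)) ⁻¹' (F ∩ F') := by
        rintro x ⟨hx, hxu⟩
        obtain ⟨g, hg, hxg⟩ := memG x hx
        obtain ⟨g', hg', hxg'⟩ := memG' (x - u) hxu
        refine ⟨?_, ?_⟩
        · have h4 : x + -v = (1 / 2 : ℝ) • g + (1 / 2 : ℝ) • (-f) := by
            rw [smul_neg, ← hvf, ← hxg]
          show x + -v ∈ F
          rw [h4]
          exact cF hg (sF _ hf) (by norm_num) (by norm_num) (by norm_num)
        · have h4 : x + -v = (1 / 2 : ℝ) • g' + (1 / 2 : ℝ) • (-f') := by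
            rw [smul_neg, ← hvf', ← hxg']
            abel
          show x + -v ∈ F'
          rw [h4]
          exact cF' hg' (sF' _ hf') (by norm_num) (by norm_num) (by norm_num)
      refine (measure_mono h5).trans (le_of_eq ?_)
      exact measure_preimage_add_right volume (-v) (F ∩ F')
  have e5 : volume G * volume G' ≤ volume P * volume (F ∩ F') := by
    rw [← e1]
    refine (lintegral_mono e4).trans (le_of_eq ?_)
    rw [lintegral_indicator_const hP, mul_comm]
  rw [vol_half F, vol_half F', ← hG, ← hG']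
  have h4 : (4 : ℝ≥0∞) ^ (Fintype.card κ) = 2 ^ (Fintype.card κ) * 2 ^ (Fintype.card κ) := by
    rw [← mul_pow]
    norm_num
  rw [h4]
  calc 2 ^ (Fintype.card κ) * volume G * (2 ^ (Fintype.card κ) * volume G') =
        2 ^ (Fintype.card κ) * 2 ^ (Fintype.card κ) * (volume G * volume G') := by ring
    _ ≤ 2 ^ (Fintype.card κ) * 2 ^ (Fintype.card κ) * (volume P * volume (F ∩ F')) := by gcongr
    _ = _ := by ring

end pack

section three

variable {κ : Type} [Fintype κ] {A B : Type} [MeasurableSpace A] [MeasurableSpace B]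
  (μ : Measure A) (ν : Measure B) [SFinite μ] [SFinite ν]

/-- hypotheses on a set of triples -/
structure Tri (s : ℕ) (K : Set (A × (κ → ℝ) × B)) (GF : Set (A × (κ → ℝ)))
    (GF' : Set ((κ → ℝ) × B)) (P : Set (κ → ℝ)) (PA QA : Set A) (PB QB : Set B) : Prop where
  mK : MeasurableSet K
  mF : MeasurableSet GF
  mF' : MeasurableSet GF'
  mP : MeasurableSet P
  mPA : MeasurableSet PA
  mPB : MeasurableSet PB
  mQA : MeasurableSet QA
  mQB : MeasurableSet QB
  card : Fintype.card κ ≤ s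
  sub : ∀ a y c, (a, y, c) ∈ K → (a, y) ∈ GF ∧ (y, c) ∈ GF' ∧ a ∈ PA ∧ c ∈ PB
  sup : ∀ a ∈ PA, ∀ c ∈ PB, ∀ y, (a, y) ∈ GF → (y, c) ∈ GF' → (a, y, c) ∈ K
  cF : ∀ a, Convex ℝ {y | (a, y) ∈ GF}
  cF' : ∀ c, Convex ℝ {y | (y, c) ∈ GF'}
  sF : ∀ a y, (a, y) ∈ GF → (a, -y) ∈ GF
  sF' : ∀ c y, (y, c) ∈ GF' → (-y, c) ∈ GF'
  cP : Convex ℝ P
  FP : ∀ a y, (a, y) ∈ GF → y ∈ P
  FP' : ∀ c y, (y, c) ∈ GF' → y ∈ P
  qA : μ PA ≤ 2 ^ s * μ QA
  qB : ν PB ≤ 2 ^ s * ν QB
  mid : ∀ a ∈ QA, ∀ y ∈ P, ∀ c ∈ QB, (a, (1 / 2 : ℝ) • y, c) ∈ K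

variable {μ ν} {s : ℕ} {K : Set (A × (κ → ℝ) × B)} {GF : Set (A × (κ → ℝ))}
    {GF' : Set ((κ → ℝ) × B)} {P : Set (κ → ℝ)} {PA QA : Set A} {PB QB : Set B}

/-- the volume is large -/
theorem Tri.vol (h : Tri μ ν s K GF GF' P PA QA PB QB) :
    μ PA * volume P * ν PB ≤ 8 ^ s * (μ.prod (volume.prod ν)) K := by
  have h1 : QA ×ˢ (((1 / 2 : ℝ) • P) ×ˢ QB) ⊆ K := by
    rintro ⟨a, y, c⟩ ⟨ha, hy, hc⟩
    obtain ⟨y', hy', rfl⟩ := hy
    exact h.mid a ha y' hy' c hc
  have h2 : μ QA * (volume ((1 / 2 : ℝ) • P) * ν QB) ≤ (μ.prod (volume.prod ν)) K := by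
    rw [← Measure.prod_prod, ← Measure.prod_prod]
    exact measure_mono h1
  have h3 : volume P ≤ 2 ^ s * volume ((1 / 2 : ℝ) • P) := by
    rw [vol_half P]
    gcongr
    · norm_num
    · exact h.card
  have h4 : (8 : ℝ≥0∞) ^ s = 2 ^ s * 2 ^ s * 2 ^ s := by
    rw [← mul_pow, ← mul_pow]
    norm_num
  calc μ PA * volume P * ν PB ≤ (2 ^ s * μ QA) * (2 ^ s * volume ((1 / 2 : ℝ) • P)) *
        (2 ^ s * ν QB) := by
        gcongr
        · exact h.qA
        · exact h.qB
    _ = 8 ^ s * (μ QA * (volume ((1 / 2 : ℝ) • P) * ν QB)) := by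
        rw [h4]
        ring
    _ ≤ _ := by gcongr

/-- volumes of the sections -/
theorem Tri.sec (h : Tri μ ν s K GF GF' P PA QA PB QB) (a : A) (c : B) :
    volume {y | (a, y) ∈ GF} * volume {y | (y, c) ∈ GF'} ≤
      4 ^ s * volume P * volume ({y | (a, y) ∈ GF} ∩ {y | (y, c) ∈ GF'}) := by
  have h1 := pack (F := {y | (a, y) ∈ GF}) (F' := {y | (y, c) ∈ GF'}) (P := P)
    (measurable_prodMk_left h.mF) (measurable_prodMk_right h.mF') h.mP (h.cF a) (h.cF' c) h.cP
    (fun y hy => h.sF a y hy) (fun y hy => h.sF' c y hy) (fun y hy => h.FP a y hy)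
    fun y hy => h.FP' c y hy
  refine h1.trans ?_
  gcongr
  · norm_num
  · exact h.card

/-- **minorization** -/
theorem Tri.min (h : Tri μ ν s K GF GF' P PA QA PB QB) {Φ : A → B → ℝ≥0∞}
    (hΦ : Measurable fun q : A × B => Φ q.1 q.2) :
    ∫⁻ u in K, ∫⁻ v in K, Φ u.1 v.2.2 ∂(μ.prod (volume.prod ν)) ∂(μ.prod (volume.prod ν)) ≤
      32 ^ s * (μ.prod (volume.prod ν)) K *
        ∫⁻ u in K, Φ u.1 u.2.2 ∂(μ.prod (volume.prod ν)) := by
  have mF1 : Measurable fun q : (κ → ℝ) × B => GF'.indicator (1 : (κ → ℝ) × B → ℝ≥0∞) q :=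
    measurable_one.indicator h.mF'
  have mF0 : Measurable fun q : A × (κ → ℝ) => GF.indicator (1 : A × (κ → ℝ) → ℝ≥0∞) q :=
    measurable_one.indicator h.mF
  have m1 : Measurable fun a : A => volume {y : κ → ℝ | (a, y) ∈ GF} :=
    measurable_measure_prodMk_left h.mF
  have m2 : Measurable fun c : B => volume {y : κ → ℝ | (y, c) ∈ GF'} :=
    measurable_measure_prodMk_right h.mF'
  have iA : Measurable fun a : A => PA.indicator (1 : A → ℝ≥0∞) a := measurable_one.indicator h.mPA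
  have iB : Measurable fun a : B => PB.indicator (1 : B → ℝ≥0∞) a := measurable_one.indicator h.mPB
  -- inner integral
  have e1 : ∀ ψ : B → ℝ≥0∞, Measurable ψ →
      ∫⁻ v in K, ψ v.2.2 ∂(μ.prod (volume.prod ν)) ≤
      μ PA * ∫⁻ c, PB.indicator 1 c * (ψ c * volume {y | (y, c) ∈ GF'}) ∂ν := by
    intro ψ hψ
    rw [← lintegral_indicator h.mK]
    have h1 : ∀ v : A × (κ → ℝ) × B, K.indicator (fun v => ψ v.2.2) v ≤
        PA.indicator 1 v.1 * (GF'.indicator 1 v.2 * (PB.indicator 1 v.2.2 * ψ v.2.2)) := by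
      rintro ⟨a, y, c⟩
      by_cases hv : (a, y, c) ∈ K
      · obtain ⟨-, h2, h3, h4⟩ := h.sub a y c hv
        rw [Set.indicator_of_mem hv, Set.indicator_of_mem h3, Set.indicator_of_mem h2,
          Set.indicator_of_mem h4]
        simp
      · rw [Set.indicator_of_notMem hv]
        exact zero_le
    refine (lintegral_mono h1).trans (le_of_eq ?_)
    have mi : Measurable fun q : (κ → ℝ) × B =>
        GF'.indicator 1 q * (PB.indicator 1 q.2 * ψ q.2) :=
      mF1.mul ((iB.comp measurable_snd).mul (hψ.comp measurable_snd))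
    rw [lintegral_prod_mul iA.aemeasurable mi.aemeasurable, lintegral_indicator_one h.mPA]
    congr 1
    rw [lintegral_prod_symm _ mi.aemeasurable]
    refine lintegral_congr fun c => ?_
    have mc : Measurable fun y : κ → ℝ => GF'.indicator (1 : (κ → ℝ) × B → ℝ≥0∞) (y, c) :=
      mF1.comp (measurable_id.prodMk measurable_const)
    change ∫⁻ y, GF'.indicator 1 (y, c) * (PB.indicator 1 c * ψ c) = _
    rw [lintegral_mul_const _ mc]
    have h5 : ∫⁻ y, GF'.indicator (1 : (κ → ℝ) × B → ℝ≥0∞) (y, c) =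
        volume {y | (y, c) ∈ GF'} := by
      rw [← lintegral_indicator_one (show MeasurableSet {y : κ → ℝ | (y, c) ∈ GF'} from
        measurable_prodMk_right h.mF')]
      rfl
    rw [h5]
    ring
  have e2 : ∀ ψ : A → ℝ≥0∞, Measurable ψ →
      ∫⁻ v in K, ψ v.1 ∂(μ.prod (volume.prod ν)) ≤
      ν PB * ∫⁻ a, PA.indicator 1 a * (ψ a * volume {y | (a, y) ∈ GF}) ∂μ := by
    intro ψ hψ
    rw [← lintegral_indicator h.mK]
    have h1 : ∀ v : A × (κ → ℝ) × B, K.indicator (fun v => ψ v.1) v ≤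
        (GF.indicator 1 (v.1, v.2.1) * (PA.indicator 1 v.1 * ψ v.1)) * PB.indicator 1 v.2.2 := by
      rintro ⟨a, y, c⟩
      by_cases hv : (a, y, c) ∈ K
      · obtain ⟨h2, -, h3, h4⟩ := h.sub a y c hv
        rw [Set.indicator_of_mem hv, Set.indicator_of_mem h3, Set.indicator_of_mem h2,
          Set.indicator_of_mem h4]
        simp
      · rw [Set.indicator_of_notMem hv]
        exact zero_le
    refine (lintegral_mono h1).trans (le_of_eq ?_)
    have mi : Measurable fun v : A × (κ → ℝ) × B =>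
        (GF.indicator 1 (v.1, v.2.1) * (PA.indicator 1 v.1 * ψ v.1)) *
          PB.indicator (1 : B → ℝ≥0∞) v.2.2 :=
      ((mF0.comp (measurable_fst.prodMk (measurable_fst.comp measurable_snd))).mul
        ((iA.comp measurable_fst).mul (hψ.comp measurable_fst))).mul
        (iB.comp (measurable_snd.comp measurable_snd))
    have mr : Measurable fun a : A =>
        PA.indicator 1 a * (ψ a * volume {y : κ → ℝ | (a, y) ∈ GF}) := iA.mul (hψ.mul m1)
    rw [lintegral_prod _ mi.aemeasurable, ← lintegral_const_mul _ mr]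
    refine lintegral_congr fun a => ?_
    have ma : Measurable fun y : κ → ℝ => GF.indicator (1 : A × (κ → ℝ) → ℝ≥0∞) (a, y) :=
      mF0.comp (measurable_const.prodMk measurable_id)
    have h6 := lintegral_prod_mul (μ := (volume : Measure (κ → ℝ))) (ν := ν)
      (f := fun y => GF.indicator (1 : A × (κ → ℝ) → ℝ≥0∞) (a, y) * (PA.indicator 1 a * ψ a))
      (g := fun c => PB.indicator 1 c) (ma.mul_const _).aemeasurable iB.aemeasurable
    refine h6.trans ?_
    rw [lintegral_indicator_one h.mPB, lintegral_mul_const _ ma]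
    have h5 : ∫⁻ y, GF.indicator (1 : A × (κ → ℝ) → ℝ≥0∞) (a, y) =
        volume {y | (a, y) ∈ GF} := by
      rw [← lintegral_indicator_one (show MeasurableSet {y : κ → ℝ | (a, y) ∈ GF} from
        measurable_prodMk_left h.mF)]
      rfl
    rw [h5]
    ring
  have e3 : ∫⁻ a, ∫⁻ c, PA.indicator 1 a * PB.indicator 1 c * Φ a c *
      volume ({y | (a, y) ∈ GF} ∩ {y | (y, c) ∈ GF'}) ∂ν ∂μ ≤
      ∫⁻ u in K, Φ u.1 u.2.2 ∂(μ.prod (volume.prod ν)) := by
    rw [← lintegral_indicator h.mK]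
    have mi : Measurable fun v : A × (κ → ℝ) × B => K.indicator (fun u => Φ u.1 u.2.2) v :=
      (hΦ.comp (measurable_fst.prodMk (measurable_snd.comp measurable_snd))).indicator h.mK
    rw [lintegral_prod _ mi.aemeasurable]
    refine lintegral_mono fun a => ?_
    have ma : Measurable fun q : (κ → ℝ) × B => K.indicator (fun u => Φ u.1 u.2.2) (a, q) :=
      mi.comp (measurable_const.prodMk measurable_id)
    rw [lintegral_prod_symm _ ma.aemeasurable]
    refine lintegral_mono fun c => ?_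
    have mS : MeasurableSet ({y | (a, y) ∈ GF} ∩ {y : κ → ℝ | (y, c) ∈ GF'}) :=
      (measurable_prodMk_left h.mF).inter (measurable_prodMk_right h.mF')
    rw [← lintegral_indicator_one mS, ← lintegral_const_mul _ (measurable_one.indicator mS)]
    refine lintegral_mono fun y => ?_
    by_cases ha : a ∈ PA
    · by_cases hc : c ∈ PB
      · by_cases hy : y ∈ {y | (a, y) ∈ GF} ∩ {y : κ → ℝ | (y, c) ∈ GF'}
        · have hK := h.sup a ha c hc y hy.1 hy.2
          rw [Set.indicator_of_mem ha, Set.indicator_of_mem hc, Set.indicator_of_mem hy,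
            Set.indicator_of_mem hK]
          simp
        · rw [Set.indicator_of_notMem hy, mul_zero]
          exact zero_le
      · rw [Set.indicator_of_notMem hc]
        simp
    · rw [Set.indicator_of_notMem ha]
      simp
  have hcurry : ∀ a, Measurable fun c => Φ a c := fun a =>
    hΦ.comp (measurable_const.prodMk measurable_id)
  have mX : Measurable fun a => ∫⁻ c, PB.indicator 1 c *
      (Φ a c * volume {y : κ → ℝ | (y, c) ∈ GF'}) ∂ν := by
    refine Measurable.lintegral_prod_right' (f := fun q : A × B => PB.indicator 1 q.2 *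
      (Φ q.1 q.2 * volume {y : κ → ℝ | (y, q.2) ∈ GF'})) ?_
    exact (iB.comp measurable_snd).mul (hΦ.mul (m2.comp measurable_snd))
  calc ∫⁻ u in K, ∫⁻ v in K, Φ u.1 v.2.2 ∂(μ.prod (volume.prod ν)) ∂(μ.prod (volume.prod ν)) ≤
        ∫⁻ u in K, μ PA * ∫⁻ c, PB.indicator 1 c *
          (Φ u.1 c * volume {y : κ → ℝ | (y, c) ∈ GF'}) ∂ν ∂(μ.prod (volume.prod ν)) :=
        lintegral_mono fun u => e1 (Φ u.1) (hcurry u.1)
    _ ≤ ν PB * ∫⁻ a, PA.indicator 1 a * ((μ PA * ∫⁻ c, PB.indicator 1 c *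
          (Φ a c * volume {y : κ → ℝ | (y, c) ∈ GF'}) ∂ν) * volume {y | (a, y) ∈ GF}) ∂μ :=
        e2 (fun a => μ PA * ∫⁻ c, PB.indicator 1 c *
          (Φ a c * volume {y : κ → ℝ | (y, c) ∈ GF'}) ∂ν) (mX.const_mul _)
    _ ≤ ν PB * ∫⁻ a, (μ PA * (4 ^ s * volume P)) * ∫⁻ c, PA.indicator 1 a * PB.indicator 1 c *
          Φ a c * volume ({y | (a, y) ∈ GF} ∩ {y | (y, c) ∈ GF'}) ∂ν ∂μ := by
        refine mul_le_mul' le_rfl (lintegral_mono fun a => ?_)
        have m3 : Measurable fun c => PB.indicator 1 c *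
            (Φ a c * volume {y : κ → ℝ | (y, c) ∈ GF'}) := iB.mul ((hcurry a).mul m2)
        have m4 : Measurable fun c => PA.indicator 1 a * PB.indicator 1 c *
          Φ a c * volume ({y | (a, y) ∈ GF} ∩ {y : κ → ℝ | (y, c) ∈ GF'}) := by
          refine ((iB.const_mul _).mul (hcurry a)).mul ?_
          have h7 : MeasurableSet {q : (κ → ℝ) × B | (a, q.1) ∈ GF ∧ q ∈ GF'} :=
            ((measurable_const.prodMk measurable_fst) h.mF).inter h.mF'
          exact measurable_measure_prodMk_right (μ := (volume : Measure (κ → ℝ))) h7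
        calc PA.indicator 1 a * ((μ PA * ∫⁻ c, PB.indicator 1 c *
              (Φ a c * volume {y : κ → ℝ | (y, c) ∈ GF'}) ∂ν) * volume {y | (a, y) ∈ GF}) =
              (μ PA * PA.indicator 1 a * volume {y | (a, y) ∈ GF}) * ∫⁻ c, PB.indicator 1 c *
              (Φ a c * volume {y : κ → ℝ | (y, c) ∈ GF'}) ∂ν := by ring
          _ = ∫⁻ c, (μ PA * PA.indicator 1 a * volume {y | (a, y) ∈ GF}) * (PB.indicator 1 c *
              (Φ a c * volume {y : κ → ℝ | (y, c) ∈ GF'})) ∂ν :=
              (lintegral_const_mul _ m3).symm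
          _ ≤ ∫⁻ c, (μ PA * (4 ^ s * volume P)) * (PA.indicator 1 a * PB.indicator 1 c *
              Φ a c * volume ({y | (a, y) ∈ GF} ∩ {y | (y, c) ∈ GF'})) ∂ν := by
              refine lintegral_mono fun c => ?_
              have h8 := h.sec a c
              calc (μ PA * PA.indicator 1 a * volume {y | (a, y) ∈ GF}) * (PB.indicator 1 c *
                    (Φ a c * volume {y : κ → ℝ | (y, c) ∈ GF'})) =
                    (μ PA * PA.indicator 1 a * PB.indicator 1 c * Φ a c) *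
                      (volume {y | (a, y) ∈ GF} * volume {y : κ → ℝ | (y, c) ∈ GF'}) := by ring
                _ ≤ (μ PA * PA.indicator 1 a * PB.indicator 1 c * Φ a c) *
                      (4 ^ s * volume P * volume ({y | (a, y) ∈ GF} ∩ {y | (y, c) ∈ GF'})) := by
                    gcongr
                _ = _ := by ring
          _ = _ := lintegral_const_mul _ m4
    _ = (μ PA * volume P * ν PB) * 4 ^ s * ∫⁻ a, ∫⁻ c, PA.indicator 1 a * PB.indicator 1 c *
          Φ a c * volume ({y | (a, y) ∈ GF} ∩ {y | (y, c) ∈ GF'}) ∂ν ∂μ := by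
        have m5 : Measurable fun a => ∫⁻ c, PA.indicator 1 a * PB.indicator 1 c *
          Φ a c * volume ({y | (a, y) ∈ GF} ∩ {y : κ → ℝ | (y, c) ∈ GF'}) ∂ν := by
          refine Measurable.lintegral_prod_right' (f := fun q : A × B => PA.indicator 1 q.1 *
            PB.indicator 1 q.2 * Φ q.1 q.2 *
            volume ({y | (q.1, y) ∈ GF} ∩ {y : κ → ℝ | (y, q.2) ∈ GF'})) ?_
          refine (((iA.comp measurable_fst).mul (iB.comp measurable_snd)).mul hΦ).mul ?_
          have h7 : MeasurableSet {q : (A × B) × (κ → ℝ) | (q.1.1, q.2) ∈ GF ∧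
              (q.2, q.1.2) ∈ GF'} :=
            (((measurable_fst.comp measurable_fst).prodMk measurable_snd) h.mF).inter
              ((measurable_snd.prodMk (measurable_snd.comp measurable_fst)) h.mF')
          exact measurable_measure_prodMk_left (ν := (volume : Measure (κ → ℝ))) h7
        rw [lintegral_const_mul _ m5]
        ring
    _ ≤ (8 ^ s * (μ.prod (volume.prod ν)) K) * 4 ^ s *
        ∫⁻ u in K, Φ u.1 u.2.2 ∂(μ.prod (volume.prod ν)) := by
        exact mul_le_mul' (mul_le_mul' h.vol le_rfl) e3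
    _ = _ := by
        have h9 : (32 : ℝ≥0∞) ^ s = 8 ^ s * 4 ^ s := by
          rw [← mul_pow]
          norm_num
        rw [h9]
        ring

end three

end Pool.Agent.V7H40.CH
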