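import Pool.Agent.V7H40.CH.Fac
import Pool.Agent.V7H40.CH.Min

/-!
# Chain bodies: mixing
-/

set_option autoImplicit false

namespace Pool.Agent.V7H40.CH

open Finset MeasureTheory
open scoped ENNReal

/-- halving some coordinates -/
theorem halve {κ : Type} [Fintype κ] (q : κ → Prop) [DecidablePred q] {s : ℕ}
    (hs : (univ.filter q).card ≤ s) (S : Set (κ → ℝ)) :
    volume S ≤ 2 ^ s * volume ((fun (x : κ → ℝ) i => if q i then x i / 2 else x i) '' S) := by
  classical
  obtain ⟨f, hf⟩ : ∃ f : (κ → ℝ) →ₗ[ℝ] (κ → ℝ),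
    f = Matrix.toLin' (Matrix.diagonal fun i : κ => if q i then (1 / 2 : ℝ) else 1) := ⟨_, rfl⟩
  have h1 : (fun (x : κ → ℝ) i => if q i then x i / 2 else x i) = f := by
    funext x i
    rw [hf, Matrix.toLin'_apply, Matrix.mulVec_diagonal]
    split_ifs <;> ring
  have h2 : LinearMap.det f = (1 / 2 : ℝ) ^ (univ.filter q).card := by
    rw [hf, LinearMap.det_toLin', Matrix.det_diagonal, prod_ite]
    simp
  rw [h1, Measure.addHaar_image_linearMap, h2, abs_of_nonneg (by positivity), ← mul_assoc]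
  have h3 : (1 : ℝ≥0∞) ≤ 2 ^ s * ENNReal.ofReal ((1 / 2) ^ (univ.filter q).card) := by
    have h4 : (2 : ℝ≥0∞) ^ s = ENNReal.ofReal (2 ^ s) := by
      rw [ENNReal.ofReal_pow (by norm_num)]
      simp
    rw [h4, ← ENNReal.ofReal_mul (by positivity), ← ENNReal.ofReal_one]
    refine ENNReal.ofReal_le_ofReal ?_
    rw [one_div, inv_pow, ← div_eq_mul_inv, le_div_iff₀ (by positivity), one_mul]
    exact pow_le_pow_right₀ (by norm_num) hs
  calc volume S = 1 * volume S := (one_mul _).symm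
    _ ≤ _ := by gcongr

section three

variable {ι : Type} [Fintype ι] (b : ι → ℕ) (r : ℕ)

/-- first coordinates -/
abbrev IA : Type := {i : ι // b i ≤ r}

/-- the block in the middle -/
abbrev IY : Type := {i : {i : ι // ¬b i ≤ r} // b i = r + 1}

/-- last coordinates -/
abbrev IB : Type := {i : {i : ι // ¬b i ≤ r} // ¬b i = r + 1}

/-- inverse of the splitting -/
def mk3 (q : (IA b r → ℝ) × (IY b r → ℝ) × (IB b r → ℝ)) : ι → ℝ := fun i =>
  if h : b i ≤ r then q.1 ⟨i, h⟩ else if h' : b i = r + 1 then q.2.1 ⟨⟨i, h⟩, h'⟩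
    else q.2.2 ⟨⟨i, h⟩, h'⟩

/-- the splitting -/
def EQ : (ι → ℝ) ≃ᵐ (IA b r → ℝ) × (IY b r → ℝ) × (IB b r → ℝ) :=
  (MeasurableEquiv.piEquivPiSubtypeProd (fun _ : ι => ℝ) (fun i => b i ≤ r)).trans
    ((MeasurableEquiv.refl _).prodCongr
      (MeasurableEquiv.piEquivPiSubtypeProd (fun _ : {i : ι // ¬b i ≤ r} => ℝ)
        (fun i => b i = r + 1)))

theorem EQ_mp : MeasurePreserving (EQ b r) := by
  unfold EQ
  refine (volume_preserving_piEquivPiSubtypeProd (fun _ : ι => ℝ) (fun i => b i ≤ r)).trans ?_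
  exact (MeasurePreserving.id _).prod
    (volume_preserving_piEquivPiSubtypeProd (fun _ : {i : ι // ¬b i ≤ r} => ℝ)
        (fun i => b i = r + 1))

theorem EQ_apply (x : ι → ℝ) :
    EQ b r x = ((fun i : IA b r => x i), (fun i : IY b r => x i), (fun i : IB b r => x i)) := rfl

theorem EQ_symm (q : (IA b r → ℝ) × (IY b r → ℝ) × (IB b r → ℝ)) :
    (EQ b r).symm q = mk3 b r q := by
  apply (EQ b r).injective
  rw [MeasurableEquiv.apply_symm_apply, EQ_apply]
  obtain ⟨a, y, c⟩ := q
  refine Prod.ext ?_ (Prod.ext ?_ ?_)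
  · funext i
    change a i = mk3 b r (a, y, c) i
    unfold mk3
    rw [dif_pos i.2]
  · funext i
    change y i = mk3 b r (a, y, c) i
    unfold mk3
    rw [dif_neg i.1.2, dif_pos i.2]
  · funext i
    change c i = mk3 b r (a, y, c) i
    unfold mk3
    rw [dif_neg i.1.2, dif_neg i.2]

theorem mk3_EQ (x : ι → ℝ) : mk3 b r (EQ b r x) = x := by
  rw [← EQ_symm, MeasurableEquiv.symm_apply_apply]

variable {b} {s : ℕ} {K : Set (ι → ℝ)}

theorem card_le {κ : Type} [Fintype κ] (q : κ → Prop) [DecidablePred q] (g : κ → ι)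
    (hg : Function.Injective g) {j : ℕ} (h : ∀ i, q i → b (g i) = j)
    (hs : ∀ j, (univ.filter fun i => b i = j).card ≤ s) : (univ.filter q).card ≤ s := by
  refine (Finset.card_le_card_of_injOn g (fun i hi => ?_) (fun i _ i' _ e => hg e)).trans (hs j)
  simp only [coe_filter, mem_univ, true_and, Set.mem_ofPred_eq] at hi ⊢
  exact h i hi

theorem tri (h : Chain b K) (hs : ∀ j, (univ.filter fun i => b i = j).card ≤ s) :
    Tri (κ := IY b r) volume volume s (mk3 b r ⁻¹' K)
      ((fun x => ((fun i : IA b r => x i), (fun i : IY b r => x i))) '' K)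
      ((fun x => ((fun i : IY b r => x i), (fun i : IB b r => x i))) '' K)
      ((fun x (i : IY b r) => x i) '' K) ((fun x (i : IA b r) => x i) '' K)
      ((fun (x : IA b r → ℝ) i => if b i = r then x i / 2 else x i) ''
        ((fun x (i : IA b r) => x i) '' K))
      ((fun x (i : IB b r) => x i) '' K)
      ((fun (x : IB b r → ℝ) i => if b i = r + 2 then x i / 2 else x i) ''
        ((fun x (i : IB b r) => x i) '' K)) where
  mK := by
    have h1 : mk3 b r ⁻¹' K = (EQ b r).symm ⁻¹' K := by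
      ext q
      rw [Set.mem_preimage, Set.mem_preimage, EQ_symm]
    rw [h1]
    exact (EQ b r).symm.measurable h.comp.isClosed.measurableSet
  mF := (h.comp.image (by fun_prop)).isClosed.measurableSet
  mF' := (h.comp.image (by fun_prop)).isClosed.measurableSet
  mP := (h.comp.image (by fun_prop)).isClosed.measurableSet
  mPA := (h.comp.image (by fun_prop)).isClosed.measurableSet
  mPB := (h.comp.image (by fun_prop)).isClosed.measurableSet
  mQA := by
    refine ((h.comp.image (by fun_prop)).image ?_).isClosed.measurableSet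
    refine continuous_pi fun i => ?_
    split_ifs <;> fun_prop
  mQB := by
    refine ((h.comp.image (by fun_prop)).image ?_).isClosed.measurableSet
    refine continuous_pi fun i => ?_
    split_ifs <;> fun_prop
  card := by
    have h1 := card_le (κ := IY b r) (b := b) (fun _ => True) (fun i => (i : ι))
      (fun i j e => Subtype.ext (Subtype.ext e)) (j := r + 1) (fun i _ => i.2) hs
    simpa using h1
  sub a y c hx := by
    have e := EQ_symm b r (a, y, c)
    have e2 := congrArg (EQ b r) e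
    rw [MeasurableEquiv.apply_symm_apply, EQ_apply] at e2
    have h1 : (fun i : IA b r => mk3 b r (a, y, c) i) = a := (congrArg Prod.fst e2).symm
    have h2 : (fun i : IY b r => mk3 b r (a, y, c) i) = y :=
      (congrArg (fun z => z.2.1) e2).symm
    have h3 : (fun i : IB b r => mk3 b r (a, y, c) i) = c :=
      (congrArg (fun z => z.2.2) e2).symm
    exact ⟨⟨_, hx, Prod.ext h1 h2⟩, ⟨_, hx, Prod.ext h2 h3⟩, ⟨_, hx, h1⟩, ⟨_, hx, h3⟩⟩
  sup a ha c hc y hy hy' := by
    obtain ⟨x, hx, e⟩ := hy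
    obtain ⟨x', hx', e'⟩ := hy'
    have e1 : ∀ i : IA b r, x i = a i := fun i => congrFun (congrArg Prod.fst e) i
    have e2 : ∀ i : IY b r, x i = y i := fun i => congrFun (congrArg Prod.snd e) i
    have e3 : ∀ i : IY b r, x' i = y i := fun i => congrFun (congrArg Prod.fst e') i
    have e4 : ∀ i : IB b r, x' i = c i := fun i => congrFun (congrArg Prod.snd e') i
    have h1 := h.glue (r + 1) x hx x' hx' fun i hi => by
      have h2 : ¬b i ≤ r := by omega
      exact (e2 ⟨⟨i, h2⟩, hi⟩).trans (e3 ⟨⟨i, h2⟩, hi⟩).symm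
    change mk3 b r (a, y, c) ∈ K
    convert h1 using 1
    funext i
    unfold mk3 CH.glue
    by_cases h2 : b i ≤ r
    · rw [dif_pos h2, if_pos (by omega)]
      exact (e1 ⟨i, h2⟩).symm
    · rw [dif_neg h2]
      by_cases h3 : b i = r + 1
      · rw [dif_pos h3, if_pos (by omega)]
        exact (e2 ⟨⟨i, h2⟩, h3⟩).symm
      · rw [dif_neg h3, if_neg (by omega)]
        exact (e4 ⟨⟨i, h2⟩, h3⟩).symm
  cF a := by
    rintro y ⟨x, hx, e⟩ y' ⟨x', hx', e'⟩ u v hu hv huv
    refine ⟨u • x + v • x', h.conv hx hx' hu hv huv, Prod.ext ?_ ?_⟩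
    · funext i
      have e1 : x i = a i := congrFun (congrArg Prod.fst e) i
      have e2 : x' i = a i := congrFun (congrArg Prod.fst e') i
      change u * x i + v * x' i = a i
      rw [e1, e2, ← add_mul, huv, one_mul]
    · funext i
      have e1 : x i = y i := congrFun (congrArg Prod.snd e) i
      have e2 : x' i = y' i := congrFun (congrArg Prod.snd e') i
      change u * x i + v * x' i = u * y i + v * y' i
      rw [e1, e2]
  cF' c := by
    rintro y ⟨x, hx, e⟩ y' ⟨x', hx', e'⟩ u v hu hv huv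
    refine ⟨u • x + v • x', h.conv hx hx' hu hv huv, Prod.ext ?_ ?_⟩
    · funext i
      have e1 : x i = y i := congrFun (congrArg Prod.fst e) i
      have e2 : x' i = y' i := congrFun (congrArg Prod.fst e') i
      change u * x i + v * x' i = u * y i + v * y' i
      rw [e1, e2]
    · funext i
      have e1 : x i = c i := congrFun (congrArg Prod.snd e) i
      have e2 : x' i = c i := congrFun (congrArg Prod.snd e') i
      change u * x i + v * x' i = c i
      rw [e1, e2, ← add_mul, huv, one_mul]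
  sF a y hy := by
    obtain ⟨x, hx, e⟩ := hy
    refine ⟨_, h.flip (r + 1) x hx, Prod.ext ?_ ?_⟩
    · funext i
      have e1 : x i = a i := congrFun (congrArg Prod.fst e) i
      change (if b i = r + 1 then -x i else x i) = a i
      have := i.2
      rw [if_neg (by omega), e1]
    · funext i
      have e1 : x i = y i := congrFun (congrArg Prod.snd e) i
      change (if b i = r + 1 then -x i else x i) = -y i
      rw [if_pos i.2, e1]
  sF' c y hy := by
    obtain ⟨x, hx, e⟩ := hy
    refine ⟨_, h.flip (r + 1) x hx, Prod.ext ?_ ?_⟩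
    · funext i
      have e1 : x i = y i := congrFun (congrArg Prod.fst e) i
      change (if b i = r + 1 then -x i else x i) = -y i
      rw [if_pos i.2, e1]
    · funext i
      have e1 : x i = c i := congrFun (congrArg Prod.snd e) i
      change (if b i = r + 1 then -x i else x i) = c i
      rw [if_neg i.2, e1]
  cP := by
    rintro _ ⟨x, hx, rfl⟩ _ ⟨x', hx', rfl⟩ u v hu hv huv
    exact ⟨u • x + v • x', h.conv hx hx' hu hv huv, rfl⟩
  FP a y hy := by
    obtain ⟨x, hx, e⟩ := hy
    exact ⟨x, hx, congrArg Prod.snd e⟩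
  FP' c y hy := by
    obtain ⟨x, hx, e⟩ := hy
    exact ⟨x, hx, congrArg Prod.fst e⟩
  qA := halve _ (card_le (κ := IA b r) (b := b) _ (fun i => (i : ι)) Subtype.val_injective
    (fun _ hi => hi) hs) _
  qB := halve _ (card_le (κ := IB b r) (b := b) _ (fun i => (i : ι))
    (fun i j e => Subtype.ext (Subtype.ext e)) (fun _ hi => hi) hs) _
  mid := by
    rintro _ ⟨_, ⟨x1, hx1, rfl⟩, rfl⟩ _ ⟨x2, hx2, rfl⟩ _ ⟨_, ⟨x3, hx3, rfl⟩, rfl⟩
    have h1 := h.mid r hx1 hx2 hx3
    change mk3 b r _ ∈ K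
    convert h1 using 1
    funext i
    unfold mk3
    by_cases h2 : b i ≤ r
    · rw [dif_pos h2, if_pos h2]
    · rw [dif_neg h2, if_neg h2]
      by_cases h3 : b i = r + 1
      · rw [dif_pos h3, if_pos h3]
        simp only [Pi.smul_apply, smul_eq_mul]
        ring
      · rw [dif_neg h3, if_neg h3]

/-- minorization for a chain body -/
theorem min_chain (h : Chain b K) (hs : ∀ j, (univ.filter fun i => b i = j).card ≤ s)
    {Φ : (ι → ℝ) → (ι → ℝ) → ℝ≥0∞} (hΦ : Measurable fun q : (ι → ℝ) × (ι → ℝ) => Φ q.1 q.2)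
    (h1 : ∀ u u' v, (∀ i, b i ≤ r → u i = u' i) → Φ u v = Φ u' v)
    (h2 : ∀ u v v', (∀ i, r + 2 ≤ b i → v i = v' i) → Φ u v = Φ u v') :
    ∫⁻ u in K, ∫⁻ v in K, Φ u v ≤ 32 ^ s * volume K * ∫⁻ u in K, Φ u u := by
  have hmp := EQ_mp b r
  have hemb := (EQ b r).measurableEmbedding
  have hK : (EQ b r) ⁻¹' (mk3 b r ⁻¹' K) = K := by
    ext x
    rw [Set.mem_preimage, Set.mem_preimage, mk3_EQ]
  have e1 : ∀ F : (ι → ℝ) → ℝ≥0∞, ∫⁻ u in K, F u =
      ∫⁻ q in mk3 b r ⁻¹' K, F (mk3 b r q) := by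
    intro F
    have h3 := hmp.setLIntegral_comp_preimage_emb hemb (fun q => F (mk3 b r q)) (mk3 b r ⁻¹' K)
    rw [hK] at h3
    rw [← h3]
    simp only [mk3_EQ]
  have e2 : volume K = volume (mk3 b r ⁻¹' K) := by
    have h3 := hmp.measure_preimage_emb hemb (mk3 b r ⁻¹' K)
    rw [hK] at h3
    exact h3
  have mm : Measurable (mk3 b r) := by
    have : mk3 b r = (EQ b r).symm := funext fun q => (EQ_symm b r q).symm
    rw [this]
    exact (EQ b r).symm.measurable
  obtain ⟨Ψ, hΨ⟩ : ∃ Ψ : (IA b r → ℝ) → (IB b r → ℝ) → ℝ≥0∞,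
    Ψ = fun a c => Φ (mk3 b r (a, 0, 0)) (mk3 b r (0, 0, c)) := ⟨_, rfl⟩
  have hΨm : Measurable fun q : (IA b r → ℝ) × (IB b r → ℝ) => Ψ q.1 q.2 := by
    rw [hΨ]
    exact hΦ.comp ((mm.comp (measurable_fst.prodMk measurable_const)).prodMk
      (mm.comp (measurable_const.prodMk (measurable_const.prodMk measurable_snd))))
  have e3 : ∀ q q' : (IA b r → ℝ) × (IY b r → ℝ) × (IB b r → ℝ),
      Φ (mk3 b r q) (mk3 b r q') = Ψ q.1 q'.2.2 := by
    intro q q'
    rw [hΨ]
    change _ = Φ (mk3 b r (q.1, 0, 0)) (mk3 b r (0, 0, q'.2.2))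
    rw [h1 _ (mk3 b r (q.1, 0, 0)) _ fun i hi => ?_, h2 _ _ (mk3 b r (0, 0, q'.2.2)) fun i hi => ?_]
    · unfold mk3
      rw [dif_neg (by omega), dif_neg (by omega), dif_neg (by omega), dif_neg (by omega)]
    · unfold mk3
      rw [dif_pos hi, dif_pos hi]
  have h3 := (tri r h hs).min hΨm
  rw [e1, e2]
  have e4 : ∀ u, ∫⁻ v in K, Φ (mk3 b r u) v = ∫⁻ v in mk3 b r ⁻¹' K, Ψ u.1 v.2.2 := by
    intro u
    rw [e1]
    exact lintegral_congr fun v => e3 u v
  simp only [e4]
  rw [e1]
  simp only [e3]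
  exact h3

end three

end Pool.Agent.V7H40.CH
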