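import Pool.Agent.V7H40.CH.Fac

/-!
# Convex bodies of bounded dimension: a simple Poincare inequality
-/

set_option autoImplicit false

namespace Pool.Agent.V7H40.CH

open Finset MeasureTheory
open scoped ENNReal

variable {ι : Type} [Fintype ι]

section

variable [DecidableEq ι]

/-- partial derivatives -/
noncomputable def DD (f : (ι → ℝ) → ℝ) (i : ι) (x : ι → ℝ) : ℝ := fderiv ℝ f x (Pi.single i 1)

theorem DD_cont {f : (ι → ℝ) → ℝ} (hf : ContDiff ℝ 1 f) (i : ι) : Continuous (DD f i) :=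
  (hf.continuous_fderiv one_ne_zero).clm_apply continuous_const

/-- squared norm of the gradient -/
noncomputable def eta (f : (ι → ℝ) → ℝ) (x : ι → ℝ) : ℝ := ∑ i, DD f i x ^ 2

theorem eta_cont {f : (ι → ℝ) → ℝ} (hf : ContDiff ℝ 1 f) : Continuous (eta f) :=
  continuous_finsetSum _ fun i _ => (DD_cont hf i).pow 2

theorem eta_nonneg (f : (ι → ℝ) → ℝ) (x : ι → ℝ) : 0 ≤ eta f x := sum_nonneg fun _ _ => sq_nonneg _

theorem fd_sq (f : (ι → ℝ) → ℝ) (z w : ι → ℝ) :
    (fderiv ℝ f z w) ^ 2 ≤ eta f z * ∑ i, w i ^ 2 := by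
  have h1 : fderiv ℝ f z w = ∑ i, DD f i z * w i := by
    have h2 : w = ∑ i, w i • (Pi.single i (1 : ℝ) : ι → ℝ) := by
      funext j
      rw [Finset.sum_apply]
      simp [Pi.single_apply]
    conv_lhs => rw [h2]
    rw [map_sum]
    refine sum_congr rfl fun i _ => ?_
    rw [map_smul, smul_eq_mul, mul_comm]
    rfl
  rw [h1]
  exact sum_mul_sq_le_sq_mul_sq _ _ _

theorem seg_pt {f : (ι → ℝ) → ℝ} (hf : ContDiff ℝ 1 f) (x y : ι → ℝ) :
    (f y - f x) ^ 2 ≤ ∫ t in (0 : ℝ)..1, (fderiv ℝ f (x + t • (y - x)) (y - x)) ^ 2 := by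
  obtain ⟨F, hF⟩ : ∃ F : ℝ → ℝ, F = fun t => fderiv ℝ f (x + t • (y - x)) (y - x) := ⟨_, rfl⟩
  have hc : Continuous F := by
    rw [hF]
    have h1 : Continuous fun t : ℝ => x + t • (y - x) := by fun_prop
    exact ((hf.continuous_fderiv one_ne_zero).comp h1).clm_apply continuous_const
  have hd : ∀ t : ℝ, HasDerivAt (fun t : ℝ => f (x + t • (y - x))) (F t) t := by
    intro t
    have h1 : HasDerivAt (fun t : ℝ => x + t • (y - x)) (y - x) t := by
      have := ((hasDerivAt_id t).smul_const (y - x)).const_add x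
      simpa using this
    have h2 := (hf.differentiable one_ne_zero (x + t • (y - x))).hasFDerivAt
    rw [hF]
    exact h2.comp_hasDerivAt t h1
  have e1 : ∫ t in (0 : ℝ)..1, F t = f y - f x := by
    rw [intervalIntegral.integral_eq_sub_of_hasDerivAt (fun t _ => hd t)
      (hc.intervalIntegrable _ _)]
    simp
  obtain ⟨c, hcd⟩ : ∃ c : ℝ, c = f y - f x := ⟨_, rfl⟩
  have e2 : 0 ≤ ∫ t in (0 : ℝ)..1, (F t - c) ^ 2 :=
    intervalIntegral.integral_nonneg zero_le_one fun _ _ => sq_nonneg _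
  have e3 : ∫ t in (0 : ℝ)..1, (F t - c) ^ 2 = (∫ t in (0 : ℝ)..1, F t ^ 2) - 2 * c * c + c ^ 2 := by
    have h1 : (fun t => (F t - c) ^ 2) = fun t => (F t ^ 2 - 2 * c * F t) + c ^ 2 := by
      funext t
      ring
    have c1 : IntervalIntegrable (fun t => F t ^ 2) volume 0 1 :=
      (hc.pow 2).intervalIntegrable _ _
    have c2 : IntervalIntegrable (fun t => 2 * c * F t) volume 0 1 :=
      (hc.const_mul _).intervalIntegrable _ _
    have c3 : IntervalIntegrable (fun t => F t ^ 2 - 2 * c * F t) volume 0 1 := c1.sub c2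
    have c4 : IntervalIntegrable (fun _ : ℝ => c ^ 2) volume 0 1 :=
      continuous_const.intervalIntegrable _ _
    rw [h1, intervalIntegral.integral_add c3 c4,
      intervalIntegral.integral_sub c1 c2, intervalIntegral.integral_const_mul, e1, ← hcd]
    simp
  rw [← hcd]
  change c ^ 2 ≤ ∫ t in (0 : ℝ)..1, (fun t => (fderiv ℝ f (x + t • (y - x)) (y - x))) t ^ 2
  rw [← hF]
  nlinarith

end

/-- change of variables -/
theorem scale_int {K : Set (ι → ℝ)} (hK : MeasurableSet K) (hc : Convex ℝ K) {h : (ι → ℝ) → ℝ≥0∞}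
    (hh : Measurable h) {t : ℝ} (ht0 : 0 ≤ t) (ht : t ≤ 1 / 2) {y : ι → ℝ} (hy : y ∈ K) :
    ∫⁻ x in K, h ((1 - t) • x + t • y) ≤ 2 ^ (Fintype.card ι) * ∫⁻ x in K, h x := by
  have ha : 0 < 1 - t := by linarith
  rw [← lintegral_indicator hK, ← lintegral_indicator hK]
  have hm : Measurable fun x => K.indicator h x := hh.indicator hK
  have h1 : ∀ x, K.indicator (fun x => h ((1 - t) • x + t • y)) x ≤
      K.indicator h ((1 - t) • x + t • y) := by
    intro x
    by_cases hx : x ∈ K
    · rw [Set.indicator_of_mem hx, Set.indicator_of_mem]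
      exact hc hx hy ha.le ht0 (by ring)
    · rw [Set.indicator_of_notMem hx]
      exact zero_le
  refine (lintegral_mono h1).trans ?_
  have h2 := Measure.map_addHaar_smul (volume : Measure (ι → ℝ)) (r := 1 - t) ha.ne'
  have hms : Measurable fun x : ι → ℝ => (1 - t) • x := by fun_prop
  have h3 : ∫⁻ x, K.indicator h ((1 - t) • x + t • y) =
      ∫⁻ x, K.indicator h (x + t • y) ∂(Measure.map ((1 - t) • ·) volume) := by
    have hq : Measurable fun x => K.indicator h (x + t • y) :=
      hm.comp (measurable_id.add_const _)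
    rw [lintegral_map hq hms]
  rw [h3, h2, lintegral_smul_measure, lintegral_add_right_eq_self (fun x => K.indicator h x) (t • y),
    smul_eq_mul, Module.finrank_pi]
  gcongr
  have h4 : (2 : ℝ≥0∞) ^ (Fintype.card ι) = ENNReal.ofReal (2 ^ (Fintype.card ι)) := by
    rw [ENNReal.ofReal_pow (by norm_num)]
    simp
  rw [h4]
  refine ENNReal.ofReal_le_ofReal ?_
  rw [abs_of_nonneg (by positivity), ← inv_pow]
  refine pow_le_pow_left₀ (by positivity) ?_ _
  rw [inv_le_comm₀ ha (by norm_num)]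
  linarith

theorem seg_t {K : Set (ι → ℝ)} (hK : MeasurableSet K) (hc : Convex ℝ K) {h : (ι → ℝ) → ℝ≥0∞}
    (hh : Measurable h) {t : ℝ} (ht0 : 0 ≤ t) (ht : t ≤ 1) :
    ∫⁻ x in K, ∫⁻ y in K, h ((1 - t) • x + t • y) ≤
      2 ^ (Fintype.card ι) * volume K * ∫⁻ x in K, h x := by
  rcases le_total t (1 / 2) with h1 | h1
  · have hm : Measurable fun q : (ι → ℝ) × (ι → ℝ) => h ((1 - t) • q.1 + t • q.2) := by
      refine hh.comp ?_
      fun_prop
    rw [lintegral_lintegral_swap hm.aemeasurable]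
    have h2 : ∫⁻ y in K, ∫⁻ x in K, h ((1 - t) • x + t • y) ≤
        ∫⁻ _ in K, 2 ^ (Fintype.card ι) * ∫⁻ x in K, h x :=
      setLIntegral_mono' hK fun y hy => scale_int hK hc hh ht0 h1 hy
    refine h2.trans (le_of_eq ?_)
    rw [lintegral_const, Measure.restrict_apply_univ]
    ring
  · have h2 : ∫⁻ x in K, ∫⁻ y in K, h ((1 - t) • x + t • y) ≤
        ∫⁻ _ in K, 2 ^ (Fintype.card ι) * ∫⁻ x in K, h x := by
      refine setLIntegral_mono' hK fun x hx => ?_
      have h3 := scale_int hK hc hh (t := 1 - t) (by linarith) (by linarith) hx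
      have h4 : ∀ y, (1 - (1 - t)) • y + (1 - t) • x = (1 - t) • x + t • y := by
        intro y
        rw [add_comm]
        congr 2
        ring
      simp only [h4] at h3
      exact h3
    refine h2.trans (le_of_eq ?_)
    rw [lintegral_const, Measure.restrict_apply_univ]
    ring

/-- exchange of integrals -/
theorem swap3 {X Y : Type} [MeasurableSpace X] [MeasurableSpace Y] {μ : Measure X} {ν : Measure Y}
    [SFinite μ] [SFinite ν] {G : X → X → Y → ℝ≥0∞}
    (hG : Measurable fun q : (X × X) × Y => G q.1.1 q.1.2 q.2) (c : ℝ≥0∞) :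
    ∫⁻ x, ∫⁻ y, c * ∫⁻ t, G x y t ∂ν ∂μ ∂μ = c * ∫⁻ t, ∫⁻ x, ∫⁻ y, G x y t ∂μ ∂μ ∂ν := by
  have m4 : Measurable fun q : X × X => ∫⁻ t, G q.1 q.2 t ∂ν := hG.lintegral_prod_right'
  have h6 : ∀ x, ∫⁻ y, c * ∫⁻ t, G x y t ∂ν ∂μ = c * ∫⁻ t, ∫⁻ y, G x y t ∂μ ∂ν := by
    intro x
    have m5 : Measurable fun y => ∫⁻ t, G x y t ∂ν :=
      m4.comp (measurable_const.prodMk measurable_id)
    rw [lintegral_const_mul _ m5]
    congr 1
    have m6 : Measurable fun q : X × Y => G x q.1 q.2 :=
      hG.comp ((measurable_const.prodMk measurable_fst).prodMk measurable_snd)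
    exact lintegral_lintegral_swap m6.aemeasurable
  simp only [h6]
  have m7 : Measurable fun q : X × Y => ∫⁻ y, G q.1 y q.2 ∂μ := by
    have m8 : Measurable fun z : (X × Y) × X => G z.1.1 z.2 z.1.2 :=
      hG.comp (((measurable_fst.comp measurable_fst).prodMk measurable_snd).prodMk
        (measurable_snd.comp measurable_fst))
    exact m8.lintegral_prod_right'
  have m9 : Measurable fun x => ∫⁻ t, ∫⁻ y, G x y t ∂μ ∂ν := m7.lintegral_prod_right'
  rw [lintegral_const_mul _ m9]
  congr 1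
  exact lintegral_lintegral_swap m7.aemeasurable

variable [DecidableEq ι]

/-- the inequality, for functions which may have a mean -/
def Poi (C : ℝ) (K : Set (ι → ℝ)) : Prop := ∀ f : (ι → ℝ) → ℝ, ContDiff ℝ 1 f →
  (volume K).toReal * ∫ x in K, f x ^ 2 ≤
    (∫ x in K, f x) ^ 2 + C * ((volume K).toReal * ∫ x in K, eta f x)

/-- a simple inequality -/
theorem poi_seg {K : Set (ι → ℝ)} (hK : IsCompact K) (hc : Convex ℝ K) {R : ℝ}
    (hR : ∀ x ∈ K, ∀ i, |x i| ≤ R) :
    Poi (2 * R ^ 2 * (Fintype.card ι) * 2 ^ (Fintype.card ι)) K := by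
  intro f hf
  have hm := hK.isClosed.measurableSet
  have hV := hK.measure_lt_top (μ := (volume : Measure (ι → ℝ)))
  obtain ⟨V, hVd⟩ : ∃ V : ℝ, V = (volume K).toReal := ⟨_, rfl⟩
  have hVe : volume K = ENNReal.ofReal V := by rw [hVd, ENNReal.ofReal_toReal hV.ne]
  have hV0 : 0 ≤ V := by rw [hVd]; exact ENNReal.toReal_nonneg
  have if1 : IntegrableOn f K := hf.continuous.continuousOn.integrableOn_compact hK
  have if2 : IntegrableOn (fun x => f x ^ 2) K :=
    (hf.continuous.pow 2).continuousOn.integrableOn_compact hK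
  have if3 : IntegrableOn (eta f) K := (eta_cont hf).continuousOn.integrableOn_compact hK
  obtain ⟨M, hM⟩ : ∃ M : ℝ, M = ∫ x in K, f x := ⟨_, rfl⟩
  obtain ⟨S, hS⟩ : ∃ S : ℝ, S = ∫ x in K, f x ^ 2 := ⟨_, rfl⟩
  obtain ⟨G, hG⟩ : ∃ G : ℝ, G = ∫ x in K, eta f x := ⟨_, rfl⟩
  have hG0 : 0 ≤ G := by rw [hG]; exact integral_nonneg fun x => eta_nonneg f x
  obtain ⟨d, hd⟩ : ∃ d : ℕ, d = Fintype.card ι := ⟨_, rfl⟩
  rw [← hVd, ← hM, ← hS, ← hG, ← hd]
  -- left side
  have e1 : ∀ x, ∫⁻ y in K, ENNReal.ofReal ((f y - f x) ^ 2) =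
      ENNReal.ofReal (S - 2 * f x * M + V * f x ^ 2) := by
    intro x
    have h1 : (fun y => (f y - f x) ^ 2) = fun y => (f y ^ 2 + (-2 * f x) * f y) + f x ^ 2 := by
      funext y
      ring
    have hi : IntegrableOn (fun y => (f y - f x) ^ 2) K := by
      rw [h1]
      exact (if2.add (if1.const_mul _)).add (integrableOn_const hV.ne)
    rw [← ofReal_integral_eq_lintegral_ofReal hi
      (Filter.Eventually.of_forall fun v => sq_nonneg _)]
    congr 1
    have a1 : ∫ y in K, (-2 * f x) * f y = (-2 * f x) * ∫ y in K, f y := integral_const_mul _ _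
    have c2 : IntegrableOn (fun y => (-2 * f x) * f y) K := if1.const_mul _
    have c3 : IntegrableOn (fun y => f y ^ 2 + (-2 * f x) * f y) K := if2.add c2
    have c4 : IntegrableOn (fun _ => f x ^ 2) K := integrableOn_const hV.ne
    rw [h1, integral_add c3 c4,
      integral_add if2 c2, a1, ← hS, ← hM, setIntegral_const, smul_eq_mul,
      measureReal_def, ← hVd]
    ring
  have e2 : ∫⁻ x in K, ENNReal.ofReal (S - 2 * f x * M + V * f x ^ 2) =
      ENNReal.ofReal (2 * (V * S - M ^ 2)) := by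
    have h1 : (fun x => S - 2 * f x * M + V * f x ^ 2) =
        fun x => (V * f x ^ 2 + (-2 * M) * f x) + S := by
      funext x
      ring
    have h0 : ∀ x, 0 ≤ S - 2 * f x * M + V * f x ^ 2 := by
      intro x
      have h2 : (fun y => (f y - f x) ^ 2) = fun y => (f y ^ 2 + (-2 * f x) * f y) + f x ^ 2 := by
        funext y
        ring
      have a1 : ∫ y in K, (-2 * f x) * f y = (-2 * f x) * ∫ y in K, f y := integral_const_mul _ _
      have c2 : IntegrableOn (fun y => (-2 * f x) * f y) K := if1.const_mul _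
      have c3 : IntegrableOn (fun y => f y ^ 2 + (-2 * f x) * f y) K := if2.add c2
      have c4 : IntegrableOn (fun _ => f x ^ 2) K := integrableOn_const hV.ne
      have h3 : ∫ y in K, (f y - f x) ^ 2 = S - 2 * f x * M + V * f x ^ 2 := by
        rw [h2, integral_add c3 c4,
          integral_add if2 c2, a1, ← hS, ← hM, setIntegral_const, smul_eq_mul,
          measureReal_def, ← hVd]
        ring
      rw [← h3]
      exact integral_nonneg fun _ => sq_nonneg _
    have hi : IntegrableOn (fun x => S - 2 * f x * M + V * f x ^ 2) K := by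
      rw [h1]
      exact ((if2.const_mul _).add (if1.const_mul _)).add (integrableOn_const hV.ne)
    rw [← ofReal_integral_eq_lintegral_ofReal hi (Filter.Eventually.of_forall h0)]
    congr 1
    have c1 : IntegrableOn (fun x => V * f x ^ 2) K := if2.const_mul _
    have c2 : IntegrableOn (fun x => (-2 * M) * f x) K := if1.const_mul _
    have c3 : IntegrableOn (fun x => V * f x ^ 2 + (-2 * M) * f x) K := c1.add c2
    have c4 : IntegrableOn (fun _ : ι → ℝ => S) K := integrableOn_const hV.ne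
    rw [h1, integral_add c3 c4,
      integral_add c1 c2, integral_const_mul, integral_const_mul,
      ← hS, ← hM, setIntegral_const, smul_eq_mul, measureReal_def, ← hVd]
    ring
  -- right side
  have mη : Measurable fun x => ENNReal.ofReal (eta f x) :=
    ENNReal.measurable_ofReal.comp (eta_cont hf).measurable
  have e3 : ∀ x ∈ K, ∀ y ∈ K, ENNReal.ofReal ((f y - f x) ^ 2) ≤
      ENNReal.ofReal (4 * R ^ 2 * d) *
        ∫⁻ t in Set.Ioc (0 : ℝ) 1, ENNReal.ofReal (eta f ((1 - t) • x + t • y)) := by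
    intro x hx y hy
    have hRR : ∑ i, (y - x) i ^ 2 ≤ 4 * R ^ 2 * d := by
      have h1 : ∀ i ∈ (univ : Finset ι), (y - x) i ^ 2 ≤ 4 * R ^ 2 := by
        intro i _
        have h2 := abs_le.1 (hR x hx i)
        have h3 := abs_le.1 (hR y hy i)
        rw [Pi.sub_apply]
        nlinarith
      refine (sum_le_sum h1).trans (le_of_eq ?_)
      rw [sum_const, card_univ, nsmul_eq_mul, ← hd]
      ring
    have hc1 : Continuous fun t : ℝ => eta f (x + t • (y - x)) := by
      have : Continuous fun t : ℝ => x + t • (y - x) := by fun_prop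
      exact (eta_cont hf).comp this
    have h4 : (f y - f x) ^ 2 ≤ 4 * R ^ 2 * d * ∫ t in (0 : ℝ)..1, eta f (x + t • (y - x)) := by
      refine (seg_pt hf x y).trans ?_
      rw [← intervalIntegral.integral_const_mul]
      have hc2 : Continuous fun t : ℝ => (fderiv ℝ f (x + t • (y - x)) (y - x)) ^ 2 := by
        have : Continuous fun t : ℝ => x + t • (y - x) := by fun_prop
        exact (((hf.continuous_fderiv one_ne_zero).comp this).clm_apply continuous_const).pow 2
      refine intervalIntegral.integral_mono_on zero_le_one (hc2.intervalIntegrable _ _)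
        ((hc1.const_mul _).intervalIntegrable _ _) fun t _ => ?_
      refine (fd_sq f _ _).trans ?_
      rw [mul_comm]
      exact mul_le_mul_of_nonneg_right hRR (eta_nonneg f _)
    refine (ENNReal.ofReal_le_ofReal h4).trans ?_
    rw [ENNReal.ofReal_mul (by positivity)]
    gcongr
    rw [intervalIntegral.integral_of_le zero_le_one,
      ofReal_integral_eq_lintegral_ofReal (hc1.integrableOn_Ioc)
      (Filter.Eventually.of_forall fun t => eta_nonneg f _)]
    refine lintegral_mono fun t => ?_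
    have h5 : x + t • (y - x) = (1 - t) • x + t • y := by
      rw [smul_sub, sub_smul, one_smul]
      abel
    rw [h5]
  have e4 : ∫⁻ x in K, ∫⁻ y in K, ENNReal.ofReal ((f y - f x) ^ 2) ≤
      ∫⁻ x in K, ∫⁻ y in K, ENNReal.ofReal (4 * R ^ 2 * d) *
        ∫⁻ t in Set.Ioc (0 : ℝ) 1, ENNReal.ofReal (eta f ((1 - t) • x + t • y)) :=
    setLIntegral_mono' hm fun x hx => setLIntegral_mono' hm fun y hy => e3 x hx y hy
  have m3 : Measurable fun q : ((ι → ℝ) × (ι → ℝ)) × ℝ =>
      ENNReal.ofReal (eta f ((1 - q.2) • q.1.1 + q.2 • q.1.2)) := by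
    refine ENNReal.measurable_ofReal.comp ((eta_cont hf).comp ?_).measurable
    fun_prop
  have e5 : ∫⁻ x in K, ∫⁻ y in K, ENNReal.ofReal (4 * R ^ 2 * d) *
        ∫⁻ t in Set.Ioc (0 : ℝ) 1, ENNReal.ofReal (eta f ((1 - t) • x + t • y)) =
      ENNReal.ofReal (4 * R ^ 2 * d) * ∫⁻ t in Set.Ioc (0 : ℝ) 1, ∫⁻ x in K, ∫⁻ y in K,
        ENNReal.ofReal (eta f ((1 - t) • x + t • y)) :=
    swap3 (μ := volume.restrict K) (ν := volume.restrict (Set.Ioc (0 : ℝ) 1))
      (G := fun x y t => ENNReal.ofReal (eta f ((1 - t) • x + t • y))) m3 _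
  have e6 : ∫⁻ t in Set.Ioc (0 : ℝ) 1, ∫⁻ x in K, ∫⁻ y in K,
        ENNReal.ofReal (eta f ((1 - t) • x + t • y)) ≤
      2 ^ d * volume K * ∫⁻ x in K, ENNReal.ofReal (eta f x) := by
    have h7 : ∫⁻ t in Set.Ioc (0 : ℝ) 1, ∫⁻ x in K, ∫⁻ y in K,
        ENNReal.ofReal (eta f ((1 - t) • x + t • y)) ≤ ∫⁻ _ in Set.Ioc (0 : ℝ) 1,
        2 ^ d * volume K * ∫⁻ x in K, ENNReal.ofReal (eta f x) :=
      setLIntegral_mono' measurableSet_Ioc fun t ht => by
        rw [hd]
        exact seg_t hm hc mη ht.1.le ht.2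
    refine h7.trans (le_of_eq ?_)
    rw [lintegral_const, Measure.restrict_apply_univ, Real.volume_Ioc]
    simp
  have e7 : ∫⁻ x in K, ENNReal.ofReal (eta f x) = ENNReal.ofReal G := by
    rw [← ofReal_integral_eq_lintegral_ofReal if3
      (Filter.Eventually.of_forall fun t => eta_nonneg f _), ← hG]
  simp only [e1] at e4
  rw [e2, e5] at e4
  have e8 := e4.trans (mul_le_mul' le_rfl e6)
  have h2d : (2 : ℝ≥0∞) ^ d = ENNReal.ofReal (2 ^ d) := by
    rw [ENNReal.ofReal_pow (by norm_num)]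
    simp
  rw [e7, hVe, h2d, ← ENNReal.ofReal_mul (by positivity), ← ENNReal.ofReal_mul (by positivity),
    ← ENNReal.ofReal_mul (by positivity), ENNReal.ofReal_le_ofReal_iff (by positivity)] at e8
  nlinarith

end Pool.Agent.V7H40.CH
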