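import Pool.Agent.V7H40.CH.Two
import Pool.Agent.V7H40.CH.Seg

/-!
# Chain bodies: from short chains to long chains
-/

set_option autoImplicit false

namespace Pool.Agent.V7H40.CH

open Finset MeasureTheory
open scoped ENNReal

section slices

variable {ι : Type} [Fintype ι] {b : ι → ℕ} {K : Set (ι → ℝ)} {s : ℕ}

theorem Chain.slice (h : Chain b K) (P : ℕ → Prop) [DecidablePred P] (z : {i // ¬P (b i)} → ℝ) :
    Chain (fun i : {i // P (b i)} => b i) {y | mk2 (fun i => P (b i)) y z ∈ K} := by
  constructor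
  · exact sec_comp h.comp z
  · intro y hy y' hy' a c ha hc hac
    have h1 := h.conv hy hy' ha hc hac
    change mk2 (fun i => P (b i)) (a • y + c • y') z ∈ K
    convert h1 using 1
    funext i
    simp only [mk2, Pi.add_apply, Pi.smul_apply, smul_eq_mul]
    split_ifs
    · rfl
    · rw [← add_mul, hac, one_mul]
  · intro j y hy
    change mk2 (fun i => P (b i)) (CH.flip (fun i : {i // P (b i)} => b i) j y) z ∈ K
    by_cases hj : P j
    · have h1 := h.flip j _ hy
      convert h1 using 1
      funext i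
      simp only [mk2, CH.flip]
      by_cases hi : P (b i)
      · simp only [dif_pos hi]
      · rw [dif_neg hi, dif_neg hi, if_neg]
        intro e
        exact hi (e ▸ hj)
    · have h2 : CH.flip (fun i : {i // P (b i)} => b i) j y = y := by
        funext i
        unfold CH.flip
        rw [if_neg]
        intro e
        exact hj (e ▸ i.2)
      rw [h2]
      exact hy
  · intro j y hy y' hy' e
    change mk2 (fun i => P (b i)) (CH.glue (fun i : {i // P (b i)} => b i) j y y') z ∈ K
    have h1 := h.glue j _ hy _ hy' (fun i hi => by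
      unfold mk2
      split_ifs with hP
      · exact e ⟨i, hP⟩ hi
      · rfl)
    convert h1 using 1
    funext i
    simp only [mk2, CH.glue]
    split_ifs <;> rfl

theorem NN_eq (p : ι → Prop) [DecidablePred p] (hK : IsCompact K) (F : (ι → ℝ) → ℝ)
    (z : {i // ¬p i} → ℝ) : NN p K F z = ∫ y in {y | mk2 p y z ∈ K}, F (mk2 p y z) := by
  unfold NN
  rw [← integral_indicator (sec_comp hK z).isClosed.measurableSet]
  rfl

theorem NN_ind (p : ι → Prop) [DecidablePred p] (F : (ι → ℝ) → ℝ)
    (z : {i // ¬p i} → ℝ) : NN p K (K.indicator F) z = NN p K F z := by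
  unfold NN
  rw [Set.indicator_indicator, Set.inter_self]

theorem BM_ind (hK : IsCompact K) {f : (ι → ℝ) → ℝ} (hf : Continuous f) : BM (K.indicator f) := by
  obtain ⟨B, hB⟩ := hK.exists_bound_of_continuousOn hf.continuousOn
  refine ⟨hf.measurable.indicator hK.isClosed.measurableSet, |B|, fun x => ?_⟩
  by_cases hx : x ∈ K
  · rw [Set.indicator_of_mem hx]
    exact (hB x hx).trans (le_abs_self B)
  · rw [Set.indicator_of_notMem hx, abs_zero]
    exact abs_nonneg B

/-- the linear part -/
noncomputable def mkL (p : ι → Prop) [DecidablePred p] : ({i // p i} → ℝ) →L[ℝ] (ι → ℝ) :=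
  ContinuousLinearMap.pi fun i => if h : p i then ContinuousLinearMap.proj (⟨i, h⟩ : {i // p i})
    else 0

theorem mk2_eq (p : ι → Prop) [DecidablePred p] (y : {i // p i} → ℝ) (z : {i // ¬p i} → ℝ) :
    mk2 p y z = mkL p y + mk2 p 0 z := by
  funext i
  unfold mk2 mkL
  rw [Pi.add_apply, ContinuousLinearMap.coe_pi']
  by_cases h : p i
  · simp [h]
  · simp [h]

variable [DecidableEq ι]

theorem mkL_single (p : ι → Prop) [DecidablePred p] (i : {i // p i}) :
    mkL p (Pi.single i 1) = Pi.single (i : ι) 1 := by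
  funext j
  unfold mkL
  rw [ContinuousLinearMap.coe_pi']
  by_cases h : p j
  · simp only [h, dite_true, ContinuousLinearMap.proj_apply]
    by_cases e : j = i
    · subst e
      simp
    · rw [Pi.single_eq_of_ne e, Pi.single_eq_of_ne]
      intro e'
      exact e (congrArg Subtype.val e')
  · simp only [h, dite_false, _root_.zero_apply]
    rw [Pi.single_eq_of_ne]
    intro e
    exact h (e ▸ i.2)

theorem DD_mk2 (p : ι → Prop) [DecidablePred p] {f : (ι → ℝ) → ℝ} (hf : ContDiff ℝ 1 f)
    (z : {i // ¬p i} → ℝ) (i : {i // p i}) (y : {i // p i} → ℝ) :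
    DD (fun y => f (mk2 p y z)) i y = DD f i (mk2 p y z) := by
  have h1 : HasFDerivAt (fun y => mk2 p y z) (mkL p) y := by
    have h2 := (mkL p).hasFDerivAt (x := y) |>.add_const (mk2 p 0 z)
    refine h2.congr_of_eventuallyEq (Filter.Eventually.of_forall fun y => mk2_eq p y z)
  have h3 := ((hf.differentiable one_ne_zero (mk2 p y z)).hasFDerivAt).comp y h1
  unfold DD
  have h4 : fderiv ℝ (fun y => f (mk2 p y z)) y = (fderiv ℝ f (mk2 p y z)).comp (mkL p) := h3.fderiv
  rw [h4, ContinuousLinearMap.comp_apply, mkL_single]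

theorem mk2_smooth (p : ι → Prop) [DecidablePred p] {f : (ι → ℝ) → ℝ} (hf : ContDiff ℝ 1 f)
    (z : {i // ¬p i} → ℝ) : ContDiff ℝ 1 fun y => f (mk2 p y z) := by
  have h1 : (fun y => f (mk2 p y z)) = fun y => f (mkL p y + mk2 p 0 z) := by
    funext y
    rw [mk2_eq]
  rw [h1]
  exact hf.comp ((mkL p).contDiff.add contDiff_const)

/-- some of the partial derivatives -/
noncomputable def etap (p : ι → Prop) [DecidablePred p] (f : (ι → ℝ) → ℝ) (x : ι → ℝ) : ℝ :=
  ∑ i, if p i then DD f i x ^ 2 else 0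

theorem etap_nonneg (p : ι → Prop) [DecidablePred p] (f : (ι → ℝ) → ℝ) (x : ι → ℝ) :
    0 ≤ etap p f x := sum_nonneg fun i _ => by
  split_ifs
  · exact sq_nonneg _
  · exact le_rfl

theorem etap_cont (p : ι → Prop) [DecidablePred p] {f : (ι → ℝ) → ℝ} (hf : ContDiff ℝ 1 f) :
    Continuous (etap p f) := by
  refine continuous_finsetSum _ fun i _ => ?_
  split_ifs
  · exact (DD_cont hf i).pow 2
  · exact continuous_const

theorem etap_mk2 (p : ι → Prop) [DecidablePred p] {f : (ι → ℝ) → ℝ} (hf : ContDiff ℝ 1 f)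
    (z : {i // ¬p i} → ℝ) (y : {i // p i} → ℝ) :
    eta (fun y => f (mk2 p y z)) y = etap p f (mk2 p y z) := by
  unfold eta etap
  rw [← sum_filter, sum_subtype (p := p) (univ.filter p) (by simp)
    (fun i => DD f i (mk2 p y z) ^ 2)]
  exact sum_congr rfl fun i _ => by rw [DD_mk2 p hf]

/-- the inequality in the slices -/
theorem sec_ineq (p : ι → Prop) [DecidablePred p] (hK : IsCompact K) {f : (ι → ℝ) → ℝ}
    (hf : ContDiff ℝ 1 f) {C : ℝ} (hC : 0 ≤ C)
    (H : ∀ z : {i // ¬p i} → ℝ, Poi C {y | mk2 p y z ∈ K}) :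
    ∫ x in K, f x ^ 2 ≤ (∫ x in K, CE p K (K.indicator f) x ^ 2) + C * ∫ x in K, etap p f x := by
  have hm := hK.isClosed.measurableSet
  have i1 : ∀ F : (ι → ℝ) → ℝ, ∫ x in K, K.indicator F x = ∫ x in K, F x := fun F =>
    setIntegral_congr_fun hm fun x hx => Set.indicator_of_mem hx _
  have i2 : ∫ x in K, K.indicator f x ^ 2 = ∫ x in K, f x ^ 2 :=
    setIntegral_congr_fun hm fun x hx => by
      rw [Set.indicator_of_mem hx]
  have h1 := CE_sec (p := p) hK (BM_ind hK hf.continuous) (BM_ind hK (etap_cont p hf))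
    (fun x => Set.indicator_nonneg (fun _ _ => etap_nonneg p f _) x) hC (fun z => ?_)
  · rw [i1, i2] at h1
    exact h1
  · have h2 := H z _ (mk2_smooth p hf z)
    have h3 : (fun x => K.indicator f x ^ 2) = K.indicator fun x => f x ^ 2 := by
      funext x
      by_cases hx : x ∈ K
      · rw [Set.indicator_of_mem hx, Set.indicator_of_mem hx]
      · rw [Set.indicator_of_notMem hx, Set.indicator_of_notMem hx]
        norm_num
    rw [h3, NN_ind, NN_ind, NN_ind, NN_eq p hK, NN_eq p hK, NN_eq p hK, NN_eq p hK]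
    have h4 : ∫ y in {y | mk2 p y z ∈ K}, (1 : ℝ) = (volume {y | mk2 p y z ∈ K}).toReal := by
      rw [setIntegral_const, smul_eq_mul, mul_one, measureReal_def]
    have h5 : ∫ y in {y | mk2 p y z ∈ K}, eta (fun y => f (mk2 p y z)) y =
        ∫ y in {y | mk2 p y z ∈ K}, etap p f (mk2 p y z) := by
      congr 1
      funext y
      exact etap_mk2 p hf z y
    rw [h4, ← h5]
    exact h2

theorem poi_zero (hK : IsCompact K) {C : ℝ}
    (key : ∀ f : (ι → ℝ) → ℝ, ContDiff ℝ 1 f → ∫ x in K, f x = 0 →
      ∫ x in K, f x ^ 2 ≤ C * ∫ x in K, eta f x) : Poi C K := by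
  intro f hf
  have hV := hK.measure_lt_top (μ := (volume : Measure (ι → ℝ)))
  obtain ⟨V, hVd⟩ : ∃ V : ℝ, V = (volume K).toReal := ⟨_, rfl⟩
  have hV0 : 0 ≤ V := by rw [hVd]; exact ENNReal.toReal_nonneg
  have if1 : IntegrableOn f K := hf.continuous.continuousOn.integrableOn_compact hK
  have if2 : IntegrableOn (fun x => f x ^ 2) K :=
    (hf.continuous.pow 2).continuousOn.integrableOn_compact hK
  rw [← hVd]
  rcases hV0.eq_or_lt with h0 | h0
  · rw [← h0]
    simp only [zero_mul, mul_zero, add_zero]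
    positivity
  obtain ⟨M, hM⟩ : ∃ M : ℝ, M = ∫ x in K, f x := ⟨_, rfl⟩
  obtain ⟨S, hS⟩ : ∃ S : ℝ, S = ∫ x in K, f x ^ 2 := ⟨_, rfl⟩
  rw [← hM, ← hS]
  have hc : ∀ c : ℝ, ∫ x in K, c = V * c := by
    intro c
    rw [setIntegral_const, smul_eq_mul, measureReal_def, ← hVd]
  have k1 := key (fun x => f x - M / V) (hf.sub contDiff_const) (by
    have c4 : IntegrableOn (fun _ : ι → ℝ => M / V) K := integrableOn_const hV.ne
    rw [integral_sub if1 c4, hc, ← hM]
    field_simp
    ring)
  have k2 : ∫ x in K, (f x - M / V) ^ 2 = S - M ^ 2 / V := by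
    have h1 : (fun x => (f x - M / V) ^ 2) = fun x => (f x ^ 2 + (-2 * (M / V)) * f x) + (M / V) ^ 2 := by
      funext x
      ring
    have c2 : IntegrableOn (fun x => (-2 * (M / V)) * f x) K := if1.const_mul _
    have c3 : IntegrableOn (fun x => f x ^ 2 + (-2 * (M / V)) * f x) K := if2.add c2
    have c4 : IntegrableOn (fun _ : ι → ℝ => (M / V) ^ 2) K := integrableOn_const hV.ne
    rw [h1, integral_add c3 c4, integral_add if2 c2, integral_const_mul, hc, ← hM, ← hS]
    field_simp
    ring
  have k3 : eta (fun x => f x - M / V) = eta f := by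
    funext x
    unfold eta DD
    simp only [fderiv_sub_const]
  rw [k2, k3] at k1
  have k4 := mul_le_mul_of_nonneg_left k1 h0.le
  have k5 : V * (S - M ^ 2 / V) = V * S - M ^ 2 := by field_simp
  rw [k5] at k4
  linarith

end slices

theorem count (c r m k : ℕ) : ∑ i ∈ range k, ((if r + 2 * m * i < c then (1 : ℝ) else 0) +
    (if c < r + 2 * m * i + 2 * m then 1 else 0)) ≤ k + 1 - (if r + 2 * m * k < c then 1 else 0) := by
  induction k with
  | zero =>
    rw [sum_range_zero]
    split_ifs <;> simp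
  | succ k ih =>
    rw [sum_range_succ]
    have h1 : r + 2 * m * (k + 1) = r + 2 * m * k + 2 * m := by ring
    rw [h1]
    have h2 : (if c < r + 2 * m * k + 2 * m then (1 : ℝ) else 0) ≤
        1 - (if r + 2 * m * k + 2 * m < c then 1 else 0) := by
      split_ifs
      · omega
      · simp
      · simp
      · simp
    push_cast
    linarith

/-- the inequality for chains with `N` blocks -/
def PP (s : ℕ) (R : ℝ) (N : ℕ) (C : ℝ) : Prop :=
  ∀ (ι : Type) [Fintype ι] [DecidableEq ι] (b : ι → ℕ) (K : Set (ι → ℝ)), Chain b K →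
    (∀ j, (univ.filter fun i => b i = j).card ≤ s) → (∀ x ∈ K, ∀ i, |x i| ≤ R) →
    ∀ lo : ℕ, (∀ i, lo < b i ∧ b i ≤ lo + N) → Poi C K

theorem step {s N L k m : ℕ} {R C : ℝ} (hs1 : 1 ≤ s) (hC : 0 ≤ C) (hk : 1 ≤ k)
    (hL : PP s R L C) (hN : N + 2 + 4 * m * k ≤ 2 * L) (hm : th s ^ m < 1) :
    PP s R N (C * (1 + 1 / k) / (1 - th s ^ m)) := by
  intro ι _ _ b K h hs hR lo hb
  have hK := h.comp
  have hmK := hK.isClosed.measurableSet
  refine poi_zero hK fun f hf h0 => ?_
  have hbm : BM (K.indicator f) := BM_ind hK hf.continuous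
  have e1 : ∫ x in K, K.indicator f x = 0 := by
    rw [← h0]
    exact setIntegral_congr_fun hmK fun x hx => Set.indicator_of_mem hx _
  have e2 : ∫ x in K, K.indicator f x ^ 2 = ∫ x in K, f x ^ 2 :=
    setIntegral_congr_fun hmK fun x hx => by
      rw [Set.indicator_of_mem hx]
  obtain ⟨r0, hr0⟩ : ∃ r0 : ℕ, r0 = lo + N / 2 := ⟨_, rfl⟩
  have sl : ∀ (P : ℕ → Prop) [DecidablePred P] (lo' : ℕ), (∀ i, P (b i) → lo' < b i ∧ b i ≤ lo' + L) →
      ∫ x in K, f x ^ 2 ≤ (∫ x in K, CE (fun i => P (b i)) K (K.indicator f) x ^ 2) +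
        C * ∫ x in K, etap (fun i => P (b i)) f x := by
    intro P _ lo' hlo
    refine sec_ineq (fun i => P (b i)) hK hf hC fun z => ?_
    refine hL _ (fun i : {i // P (b i)} => b i) _ (h.slice P z) (fun j => ?_) (fun y hy i => ?_)
      lo' fun i => hlo i i.2
    · exact card_le (b := b) (fun i : {i // P (b i)} => b i = j) (fun i => (i : ι))
        Subtype.val_injective (fun i hi => hi) hs
    · have h1 := hR _ hy i
      have h2 : mk2 (fun i => P (b i)) y z (i : ι) = y i := by
        unfold mk2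
        rw [dif_pos i.2]
      rwa [h2] at h1
  obtain ⟨S, hS⟩ : ∃ S : ℝ, S = ∫ x in K, f x ^ 2 := ⟨_, rfl⟩
  have one : ∀ i ∈ range k, (1 - th s ^ m) * S ≤ C * ∫ x in K,
      (etap (fun j => r0 + 2 * m * i < b j) f x + etap (fun j => b j < r0 + 2 * m * i + 2 * m) f x) := by
    intro i hi
    have hik : i < k := mem_range.1 hi
    have hmi : m * i + m ≤ m * k := by
      have : m * (i + 1) ≤ m * k := Nat.mul_le_mul_left m hik
      linarith
    have t0 := two_block h hs hs1 (r0 + 2 * m * i) m hbm e1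
    have t1 := sl (fun j => r0 + 2 * m * i < j) (r0 + 2 * m * i) fun j hj => ⟨hj, by
      have := (hb j).2
      rw [mul_assoc] at hN ⊢
      omega⟩
    have t2 := sl (fun j => j < r0 + 2 * m * i + 2 * m) lo fun j hj => ⟨(hb j).1, by
      rw [mul_assoc] at hN hj
      omega⟩
    rw [e2] at t0
    have i1 : IntegrableOn (etap (fun j => r0 + 2 * m * i < b j) f) K :=
      (etap_cont _ hf).continuousOn.integrableOn_compact hK
    have i2 : IntegrableOn (etap (fun j => b j < r0 + 2 * m * i + 2 * m) f) K :=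
      (etap_cont _ hf).continuousOn.integrableOn_compact hK
    rw [integral_add i1 i2, mul_add, hS]
    linarith
  have hsum := sum_le_sum one
  rw [sum_const, card_range, nsmul_eq_mul, ← mul_sum, ← integral_finsetSum] at hsum
  · have hpt : ∫ x in K, ∑ i ∈ range k, (etap (fun j => r0 + 2 * m * i < b j) f x +
        etap (fun j => b j < r0 + 2 * m * i + 2 * m) f x) ≤ ∫ x in K, (k + 1) * eta f x := by
      refine setIntegral_mono_on ?_ ?_ hmK fun x _ => ?_
      · exact (continuous_finsetSum _ fun i _ => (etap_cont _ hf).add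
          (etap_cont _ hf)).continuousOn.integrableOn_compact hK
      · exact ((eta_cont hf).const_mul _).continuousOn.integrableOn_compact hK
      · unfold etap eta
        simp only [← sum_add_distrib]
        rw [sum_comm, mul_sum]
        refine sum_le_sum fun j _ => ?_
        have c1 := count (b j) r0 m k
        have c2 : ∑ i ∈ range k, ((if r0 + 2 * m * i < b j then DD f j x ^ 2 else 0) +
            (if b j < r0 + 2 * m * i + 2 * m then DD f j x ^ 2 else 0)) =
            (∑ i ∈ range k, ((if r0 + 2 * m * i < b j then (1 : ℝ) else 0) +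
            (if b j < r0 + 2 * m * i + 2 * m then 1 else 0))) * DD f j x ^ 2 := by
          rw [sum_mul]
          refine sum_congr rfl fun i _ => ?_
          rw [add_mul]
          congr 1
          · split_ifs <;> simp
          · split_ifs <;> simp
        rw [c2]
        refine mul_le_mul_of_nonneg_right (c1.trans ?_) (sq_nonneg _)
        split_ifs <;> simp
    rw [integral_const_mul] at hpt
    have hk0 : (0 : ℝ) < k := by exact_mod_cast hk
    have h1m : 0 < 1 - th s ^ m := by linarith
    have fin1 := hsum.trans (mul_le_mul_of_nonneg_left hpt hC)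
    rw [← hS, div_mul_eq_mul_div, le_div_iff₀ h1m]
    have fin2 : k * (S * (1 - th s ^ m)) ≤ k * (C * (1 + 1 / k) * ∫ x in K, eta f x) := by
      have e3 : (k : ℝ) * (C * (1 + 1 / k) * ∫ x in K, eta f x) =
          C * ((k + 1) * ∫ x in K, eta f x) := by
        field_simp
      rw [e3]
      linarith
    exact le_of_mul_le_mul_left fin2 hk0
  · intro i _
    exact ((etap_cont _ hf).add (etap_cont _ hf)).continuousOn.integrableOn_compact hK

end Pool.Agent.V7H40.CH
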