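import Pool.Agent.V7H40.CH.Mix

/-!
# Chain bodies: correlations of distant blocks
-/

set_option autoImplicit false

namespace Pool.Agent.V7H40.CH

open Finset MeasureTheory
open scoped ENNReal

variable {ι : Type} [Fintype ι] {b : ι → ℕ} {s : ℕ} {K : Set (ι → ℝ)}

/-- the rate -/
noncomputable def th (s : ℕ) : ℝ := 1 - 1 / 32 ^ s

theorem th_pos {s : ℕ} (hs : 1 ≤ s) : 0 < th s := by
  unfold th
  have h1 : (32 : ℝ) ^ 1 ≤ 32 ^ s := pow_le_pow_right₀ (by norm_num) hs
  have h2 : 1 / (32 : ℝ) ^ s ≤ 1 / 32 ^ 1 := one_div_le_one_div_of_le (by norm_num) h1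
  norm_num at h2 ⊢
  linarith

theorem th_lt (s : ℕ) : th s < 1 := by
  unfold th
  have : (0 : ℝ) < 1 / 32 ^ s := by positivity
  linarith

/-- AM-GM -/
theorem amgm (hK : IsCompact K) {g f : (ι → ℝ) → ℝ} (hg : BM g) (hf : BM f) {t : ℝ} (ht : 0 < t) :
    2 * ∫ x in K, g x * f x ≤ t * (∫ x in K, g x ^ 2) + t⁻¹ * ∫ x in K, f x ^ 2 := by
  have hV := hK.measure_lt_top (μ := (volume : Measure (ι → ℝ)))
  rw [← integral_const_mul, ← integral_const_mul, ← integral_const_mul,
    ← integral_add ((hg.sq.smul t).on hV) ((hf.sq.smul t⁻¹).on hV)]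
  refine integral_mono (((hg.mul hf).smul 2).on hV)
    (((hg.sq.smul t).add (hf.sq.smul t⁻¹)).on hV) fun x => ?_
  change 2 * (g x * f x) ≤ t * g x ^ 2 + t⁻¹ * f x ^ 2
  have h1 : t * g x ^ 2 + t⁻¹ * f x ^ 2 - 2 * (g x * f x) = t * (g x - t⁻¹ * f x) ^ 2 := by
    field_simp
    ring
  have h2 : 0 ≤ t * (g x - t⁻¹ * f x) ^ 2 := by positivity
  linarith

/-- one step -/
theorem mix_one (h : Chain b K) (hs : ∀ j, (univ.filter fun i => b i = j).card ≤ s) (r : ℕ)
    {g f : (ι → ℝ) → ℝ} (hg : BM g) (hf : BM f)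
    (dg : ∀ u v, (∀ i, b i ≤ r → u i = v i) → g u = g v)
    (df : ∀ u v, (∀ i, r + 2 ≤ b i → u i = v i) → f u = f v)
    (h0 : ∫ x in K, f x = 0) {t : ℝ} (ht : 0 < t) :
    2 * ∫ x in K, g x * f x ≤
      th s * (t * (∫ x in K, g x ^ 2) + t⁻¹ * ∫ x in K, f x ^ 2) := by
  have hV := h.comp.measure_lt_top (μ := (volume : Measure (ι → ℝ)))
  obtain ⟨V, hVd⟩ : ∃ V : ℝ, V = (volume K).toReal := ⟨_, rfl⟩
  have hVe : volume K = ENNReal.ofReal V := by rw [hVd, ENNReal.ofReal_toReal hV.ne]
  have hV0 : 0 ≤ V := by rw [hVd]; exact ENNReal.toReal_nonneg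
  rcases hV0.eq_or_lt with h1 | hVp
  · have h2 : volume K = 0 := by rw [hVe, ← h1, ENNReal.ofReal_zero]
    rw [Measure.restrict_eq_zero.2 h2]
    simp
  obtain ⟨φ, hφ⟩ : ∃ φ : (ι → ℝ) → (ι → ℝ) → ℝ,
    φ = fun u v => t * g u ^ 2 + (-2 * g u) * f v + t⁻¹ * f v ^ 2 := ⟨_, rfl⟩
  have hφ0 : ∀ u v, 0 ≤ φ u v := by
    intro u v
    have h1 : φ u v = t * (g u - t⁻¹ * f v) ^ 2 := by
      rw [hφ]
      field_simp
      ring
    rw [h1]
    positivity
  obtain ⟨G, hG⟩ : ∃ G : ℝ, G = ∫ x in K, g x ^ 2 := ⟨_, rfl⟩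
  obtain ⟨H, hH⟩ : ∃ H : ℝ, H = ∫ x in K, f x ^ 2 := ⟨_, rfl⟩
  obtain ⟨M, hM⟩ : ∃ M : ℝ, M = ∫ x in K, g x * f x := ⟨_, rfl⟩
  have hG0 : 0 ≤ G := by rw [hG]; exact integral_nonneg fun _ => sq_nonneg _
  have hH0 : 0 ≤ H := by rw [hH]; exact integral_nonneg fun _ => sq_nonneg _
  rw [← hG, ← hH, ← hM]
  have e1 : ∀ u, ∫⁻ v in K, ENNReal.ofReal (φ u v) =
      ENNReal.ofReal (V * t * g u ^ 2 + t⁻¹ * H) := by
    intro u
    have hb : BM fun v => φ u v := by
      rw [hφ]
      exact ((BM.const _).add (hf.smul _)).add (hf.sq.smul _)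
    rw [← ofReal_integral_eq_lintegral_ofReal (hb.on hV)
      (Filter.Eventually.of_forall fun v => hφ0 u v)]
    congr 1
    rw [hφ]
    change ∫ v in K, (t * g u ^ 2 + (-2 * g u) * f v + t⁻¹ * f v ^ 2) = _
    have a1 : ∫ v in K, (-2 * g u) * f v = (-2 * g u) * ∫ v in K, f v := integral_const_mul _ _
    have a2 : ∫ v in K, t⁻¹ * f v ^ 2 = t⁻¹ * ∫ v in K, f v ^ 2 := integral_const_mul _ _
    rw [integral_add (((BM.const _).add (hf.smul _)).on hV) ((hf.sq.smul _).on hV),
      integral_add ((BM.const _).on hV) ((hf.smul _).on hV), a1, a2, h0, ← hH, setIntegral_const,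
      smul_eq_mul, measureReal_def, ← hVd]
    ring
  have e2 : ∫⁻ u in K, ENNReal.ofReal (V * t * g u ^ 2 + t⁻¹ * H) =
      ENNReal.ofReal (V * (t * G + t⁻¹ * H)) := by
    have hb : BM fun u => V * t * g u ^ 2 + t⁻¹ * H := (hg.sq.smul _).add (BM.const _)
    rw [← ofReal_integral_eq_lintegral_ofReal (hb.on hV)
      (Filter.Eventually.of_forall fun v => by positivity)]
    congr 1
    rw [integral_add ((hg.sq.smul _).on hV) ((BM.const _).on hV), integral_const_mul, ← hG,
      setIntegral_const, smul_eq_mul, measureReal_def, ← hVd]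
    ring
  have e3 : ∫⁻ u in K, ENNReal.ofReal (φ u u) = ENNReal.ofReal (t * G - 2 * M + t⁻¹ * H) := by
    have hb : BM fun u => φ u u := by
      rw [hφ]
      have h3 := (((hg.sq.smul t).add ((hg.mul hf).smul (-2))).add (hf.sq.smul t⁻¹))
      have h4 : (fun u => t * g u ^ 2 + (-2 * g u) * f u + t⁻¹ * f u ^ 2) =
          fun x => t * g x ^ 2 + -2 * (g x * f x) + t⁻¹ * f x ^ 2 := by
        funext u
        ring
      rw [h4]
      exact h3
    rw [← ofReal_integral_eq_lintegral_ofReal (hb.on hV)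
      (Filter.Eventually.of_forall fun v => hφ0 v v)]
    congr 1
    rw [hφ]
    have h4 : (fun u => t * g u ^ 2 + (-2 * g u) * f u + t⁻¹ * f u ^ 2) =
        fun x => t * g x ^ 2 + -2 * (g x * f x) + t⁻¹ * f x ^ 2 := by
      funext u
      ring
    change ∫ u in K, (fun u => t * g u ^ 2 + (-2 * g u) * f u + t⁻¹ * f u ^ 2) u = _
    rw [h4, integral_add (((hg.sq.smul t).add ((hg.mul hf).smul (-2))).on hV)
      ((hf.sq.smul _).on hV), integral_add ((hg.sq.smul _).on hV) (((hg.mul hf).smul _).on hV),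
      integral_const_mul, integral_const_mul, integral_const_mul, ← hG, ← hH, ← hM]
    ring
  have mφ : Measurable fun q : (ι → ℝ) × (ι → ℝ) => ENNReal.ofReal (φ q.1 q.2) := by
    rw [hφ]
    refine ENNReal.measurable_ofReal.comp ?_
    have m1 : Measurable fun q : (ι → ℝ) × (ι → ℝ) => g q.1 := hg.1.comp measurable_fst
    have m2 : Measurable fun q : (ι → ℝ) × (ι → ℝ) => f q.2 := hf.1.comp measurable_snd
    exact (((m1.pow_const 2).const_mul t).add ((m1.const_mul (-2)).mul m2)).add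
      ((m2.pow_const 2).const_mul _)
  have key := min_chain r h hs (Φ := fun u v => ENNReal.ofReal (φ u v)) mφ
    (fun u u' v huu => by
      change ENNReal.ofReal (φ u v) = ENNReal.ofReal (φ u' v)
      rw [hφ]
      change ENNReal.ofReal (t * g u ^ 2 + (-2 * g u) * f v + t⁻¹ * f v ^ 2) = _
      rw [dg u u' huu])
    (fun u v v' hvv => by
      change ENNReal.ofReal (φ u v) = ENNReal.ofReal (φ u v')
      rw [hφ]
      change ENNReal.ofReal (t * g u ^ 2 + (-2 * g u) * f v + t⁻¹ * f v ^ 2) = _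
      rw [df v v' hvv])
  simp only [e1] at key
  rw [e2, e3, hVe] at key
  have h32 : (32 : ℝ≥0∞) ^ s = ENNReal.ofReal (32 ^ s) := by
    rw [ENNReal.ofReal_pow (by norm_num)]
    simp
  have hD : 0 ≤ t * G - 2 * M + t⁻¹ * H := by
    have := amgm h.comp hg hf ht
    rw [← hG, ← hH, ← hM] at this
    linarith
  rw [h32, ← ENNReal.ofReal_mul (by positivity), ← ENNReal.ofReal_mul (by positivity),
    ENNReal.ofReal_le_ofReal_iff (by positivity)] at key
  have h5 : t * G + t⁻¹ * H ≤ 32 ^ s * (t * G - 2 * M + t⁻¹ * H) := by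
    refine le_of_mul_le_mul_left ?_ hVp
    linarith
  unfold th
  have h6 : (0 : ℝ) < 32 ^ s := by positivity
  have h7 : 1 / 32 ^ s * (t * G + t⁻¹ * H) ≤ t * G - 2 * M + t⁻¹ * H := by
    rw [one_div, inv_mul_le_iff₀ h6]
    exact h5
  linarith

/-- many steps -/
theorem mix_all (h : Chain b K) (hs : ∀ j, (univ.filter fun i => b i = j).card ≤ s) (hs1 : 1 ≤ s)
    (r : ℕ) {g : (ι → ℝ) → ℝ} (hg : BM g)
    (dg : ∀ u v, (∀ i, b i ≤ r → u i = v i) → g u = g v) (m : ℕ) :
    ∀ f : (ι → ℝ) → ℝ, BM f → (∀ u v, (∀ i, r + 2 * m ≤ b i → u i = v i) → f u = f v) →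
      ∫ x in K, f x = 0 → ∀ t : ℝ, 0 < t → 2 * ∫ x in K, g x * f x ≤
      th s ^ m * (t * (∫ x in K, g x ^ 2) + t⁻¹ * ∫ x in K, f x ^ 2) := by
  have hθ := th_pos hs1
  have hmK := h.comp.isClosed.measurableSet
  induction m with
  | zero =>
    intro f hf _ _ t ht
    rw [pow_zero, one_mul]
    exact amgm h.comp hg hf ht
  | succ m ih =>
    intro f hf df h0 t ht
    obtain ⟨q, hq⟩ : ∃ q : ℕ, q = r + 2 * m := ⟨_, rfl⟩
    obtain ⟨π, hπ⟩ : ∃ π : (ι → ℝ) → (ι → ℝ), π = fun x i => if b i = q then x i else 0 :=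
      ⟨_, rfl⟩
    have mπ : Measurable π := by
      rw [hπ]
      refine measurable_pi_lambda _ fun i => ?_
      split_ifs <;> fun_prop
    have b1 : BM (CE (fun i => q < b i) K f) := CE_bm h.comp hf
    have b2 : BM fun x => CE (fun i => q < b i) K f (π x) := b1.comp mπ
    have d2 : ∀ u v : ι → ℝ, (∀ i, b i = q → u i = v i) →
        CE (fun i => q < b i) K f (π u) = CE (fun i => q < b i) K f (π v) := by
      intro u v huv
      have : π u = π v := by
        rw [hπ]
        funext i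
        change (if b i = q then u i else 0) = if b i = q then v i else 0
        split_ifs with hi
        · exact huv i hi
        · rfl
      rw [this]
    have d1 : ∀ u v : ι → ℝ, (∀ i, q + 2 ≤ b i → u i = v i) → f u = f v := by
      intro u v huv
      exact df u v fun i hi => huv i (by omega)
    -- the value on `K`
    have hmem : ∀ x ∈ K, ∀ y : {i // q < b i} → ℝ,
        (mk2 (fun i => q < b i) y (rest _ x) ∈ K ↔ mk2 (fun i => q < b i) y (rest _ (π x)) ∈ K) := by
      intro x hx y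
      have hπx : π x ∈ K := by
        rw [hπ]
        exact h.zero (fun j => j = q) hx
      constructor
      · intro hw
        have h2 := h.glue q _ hπx _ hw fun i hi => by
          rw [hπ]
          change (if b i = q then x i else 0) =
            if h : q < b i then y ⟨i, h⟩ else x i
          rw [if_pos hi, dif_neg (by omega)]
        convert h2 using 1
        funext i
        change (if h : q < b i then y ⟨i, h⟩ else π x i) = if b i ≤ q then π x i else
          if h : q < b i then y ⟨i, h⟩ else x i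
        by_cases hi : q < b i
        · rw [dif_pos hi, if_neg (by omega), dif_pos hi]
        · rw [dif_neg hi, if_pos (by omega)]
      · intro hw
        have h2 := h.glue q _ hx _ hw fun i hi => by
          change x i = if h : q < b i then y ⟨i, h⟩ else π x i
          rw [dif_neg (by omega), hπ]
          change x i = if b i = q then x i else 0
          rw [if_pos hi]
        convert h2 using 1
        funext i
        change (if h : q < b i then y ⟨i, h⟩ else x i) = if b i ≤ q then x i else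
          if h : q < b i then y ⟨i, h⟩ else π x i
        by_cases hi : q < b i
        · rw [dif_pos hi, if_neg (by omega), dif_pos hi]
        · rw [dif_neg hi, if_pos (by omega)]
    have hN : ∀ F : (ι → ℝ) → ℝ, (∀ u v : ι → ℝ, (∀ i, q < b i → u i = v i) → F u = F v) →
        ∀ x ∈ K, NN (fun i => q < b i) K F (rest _ x) = NN (fun i => q < b i) K F (rest _ (π x)) := by
      intro F hF x hx
      unfold NN
      congr 1
      funext y
      have hFe : F (mk2 (fun i => q < b i) y (rest _ x)) =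
          F (mk2 (fun i => q < b i) y (rest _ (π x))) := by
        refine hF _ _ fun i hi => ?_
        unfold mk2
        rw [dif_pos hi, dif_pos hi]
      by_cases hy : mk2 (fun i => q < b i) y (rest _ x) ∈ K
      · rw [Set.indicator_of_mem hy, Set.indicator_of_mem ((hmem x hx y).1 hy), hFe]
      · rw [Set.indicator_of_notMem hy,
          Set.indicator_of_notMem (fun h' => hy ((hmem x hx y).2 h'))]
    have hval : ∀ x ∈ K, CE (fun i => q < b i) K f (π x) = CE (fun i => q < b i) K f x := by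
      intro x hx
      unfold CE
      rw [hN f (fun u v huv => d1 u v fun i hi => huv i (by omega)) x hx,
        hN (fun _ => 1) (fun _ _ _ => rfl) x hx]
    have c1 : ∀ F : (ι → ℝ) → ℝ, BM F → (∀ u v : ι → ℝ, (∀ i, b i ≤ q → u i = v i) → F u = F v) →
        ∫ x in K, F x * CE (fun i => q < b i) K f (π x) = ∫ x in K, F x * f x := by
      intro F hF dF
      have h3 := CE_int (p := fun i => q < b i) h.comp hf hF
        (fun u v huv => dF u v fun i hi => huv i (by omega))
      have h4 : ∫ x in K, F x * f x = ∫ x in K, f x * F x := by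
        congr 1
        funext x
        ring
      rw [h4, ← h3]
      refine setIntegral_congr_fun hmK fun x hx => ?_
      change F x * CE (fun i => q < b i) K f (π x) = CE (fun i => q < b i) K f x * F x
      rw [hval x hx]
      ring
    have z1 : ∫ x in K, CE (fun i => q < b i) K f (π x) = 0 := by
      have h3 := c1 (fun _ => 1) (BM.const 1) fun _ _ _ => rfl
      simp only [one_mul] at h3
      rw [h3, h0]
    have sq1 : ∫ x in K, CE (fun i => q < b i) K f (π x) ^ 2 =
        ∫ x in K, CE (fun i => q < b i) K f (π x) * f x := by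
      have h3 := c1 (fun x => CE (fun i => q < b i) K f (π x)) b2
        fun u v huv => d2 u v fun i hi => huv i (by omega)
      rw [← h3]
      congr 1
      funext x
      ring
    have s1 := mix_one h hs q b2 hf (fun u v huv => d2 u v fun i hi => huv i (by omega)) d1 h0
      (t := (th s)⁻¹) (by positivity)
    rw [← sq1, inv_inv] at s1
    obtain ⟨X, hX⟩ : ∃ X : ℝ, X = ∫ x in K, CE (fun i => q < b i) K f (π x) ^ 2 := ⟨_, rfl⟩
    obtain ⟨G, hG⟩ : ∃ G : ℝ, G = ∫ x in K, g x ^ 2 := ⟨_, rfl⟩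
    obtain ⟨H, hH⟩ : ∃ H : ℝ, H = ∫ x in K, f x ^ 2 := ⟨_, rfl⟩
    rw [← hX, ← hH] at s1
    have s2 : X ≤ th s ^ 2 * H := by
      have h3 : th s * ((th s)⁻¹ * X + th s * H) = X + th s ^ 2 * H := by
        field_simp
      rw [h3] at s1
      linarith
    have s3 := ih (fun x => CE (fun i => q < b i) K f (π x)) b2
      (fun u v huv => d2 u v fun i hi => huv i (by omega)) z1 (th s * t) (by positivity)
    rw [c1 g hg (fun u v huv => dg u v fun i hi => huv i (by omega)), ← hX, ← hG] at s3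
    rw [← hG, ← hH]
    refine s3.trans ?_
    have h4 : (th s * t)⁻¹ * X ≤ (th s * t)⁻¹ * (th s ^ 2 * H) :=
      mul_le_mul_of_nonneg_left s2 (by positivity)
    have h5 : th s ^ m * (th s * t * G + (th s * t)⁻¹ * X) ≤
        th s ^ m * (th s * t * G + (th s * t)⁻¹ * (th s ^ 2 * H)) :=
      mul_le_mul_of_nonneg_left (by linarith) (by positivity)
    refine h5.trans (le_of_eq ?_)
    field_simp
    ring

/-- two overlapping sets of blocks -/
theorem two_block (h : Chain b K) (hs : ∀ j, (univ.filter fun i => b i = j).card ≤ s)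
    (hs1 : 1 ≤ s) (r m : ℕ) {f : (ι → ℝ) → ℝ} (hf : BM f) (h0 : ∫ x in K, f x = 0) :
    (1 - th s ^ m) * ∫ x in K, f x ^ 2 ≤
      ((∫ x in K, f x ^ 2) - ∫ x in K, CE (fun i => r < b i) K f x ^ 2) +
      ((∫ x in K, f x ^ 2) - ∫ x in K, CE (fun i => b i < r + 2 * m) K f x ^ 2) := by
  have hV := h.comp.measure_lt_top (μ := (volume : Measure (ι → ℝ)))
  have b1 : BM (CE (fun i => r < b i) K f) := CE_bm h.comp hf
  have b2 : BM (CE (fun i => b i < r + 2 * m) K f) := CE_bm h.comp hf
  have e1 : ∫ x in K, f x * CE (fun i => r < b i) K f x =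
      ∫ x in K, CE (fun i => r < b i) K f x ^ 2 := by
    rw [← CE_int h.comp hf b1 fun u v huv => CE_dep f huv]
    congr 1
    funext x
    ring
  have e2 : ∫ x in K, f x * CE (fun i => b i < r + 2 * m) K f x =
      ∫ x in K, CE (fun i => b i < r + 2 * m) K f x ^ 2 := by
    rw [← CE_int h.comp hf b2 fun u v huv => CE_dep f huv]
    congr 1
    funext x
    ring
  have e3 : ∫ x in K, CE (fun i => b i < r + 2 * m) K f x = 0 := by
    have h3 := CE_int (p := fun i => b i < r + 2 * m) h.comp hf (BM.const 1) fun _ _ _ => rfl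
    simp only [mul_one] at h3
    rw [h3, h0]
  have k1 := mix_all h hs hs1 r b1
    (fun u v huv => CE_dep f fun i hi => huv i (by omega)) m _ b2
    (fun u v huv => CE_dep f fun i hi => huv i (by omega)) e3 1 one_pos
  have k2 := amgm h.comp hf (b1.add b2) (t := 1 + th s ^ m)
    (by have := pow_pos (th_pos hs1) m; linarith)
  obtain ⟨F, hF⟩ : ∃ F : ℝ, F = ∫ x in K, f x ^ 2 := ⟨_, rfl⟩
  obtain ⟨G, hG⟩ : ∃ G : ℝ, G = ∫ x in K, CE (fun i => r < b i) K f x ^ 2 := ⟨_, rfl⟩
  obtain ⟨H, hH⟩ : ∃ H : ℝ, H = ∫ x in K, CE (fun i => b i < r + 2 * m) K f x ^ 2 := ⟨_, rfl⟩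
  obtain ⟨M, hM⟩ : ∃ M : ℝ, M = ∫ x in K, CE (fun i => r < b i) K f x *
    CE (fun i => b i < r + 2 * m) K f x := ⟨_, rfl⟩
  obtain ⟨ε, hε⟩ : ∃ ε : ℝ, ε = th s ^ m := ⟨_, rfl⟩
  have hε0 : 0 < ε := by rw [hε]; exact pow_pos (th_pos hs1) m
  have e4 : ∫ x in K, f x * (CE (fun i => r < b i) K f x + CE (fun i => b i < r + 2 * m) K f x) =
      G + H := by
    have h5 : (fun x => f x * (CE (fun i => r < b i) K f x +
        CE (fun i => b i < r + 2 * m) K f x)) = fun x => f x * CE (fun i => r < b i) K f x +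
        f x * CE (fun i => b i < r + 2 * m) K f x := by
      funext x
      ring
    rw [h5, integral_add ((hf.mul b1).on hV) ((hf.mul b2).on hV), e1, e2, hG, hH]
  have e5 : ∫ x in K, (CE (fun i => r < b i) K f x + CE (fun i => b i < r + 2 * m) K f x) ^ 2 =
      G + 2 * M + H := by
    have h5 : (fun x => (CE (fun i => r < b i) K f x +
        CE (fun i => b i < r + 2 * m) K f x) ^ 2) = fun x => CE (fun i => r < b i) K f x ^ 2 +
        2 * (CE (fun i => r < b i) K f x * CE (fun i => b i < r + 2 * m) K f x) +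
        CE (fun i => b i < r + 2 * m) K f x ^ 2 := by
      funext x
      ring
    rw [h5, integral_add ((b1.sq.add ((b1.mul b2).smul 2)).on hV) (b2.sq.on hV),
      integral_add (b1.sq.on hV) (((b1.mul b2).smul 2).on hV), integral_const_mul, ← hG, ← hH, ← hM]
  rw [e4, e5, ← hF, ← hε] at k2
  rw [← hM, ← hG, ← hH, ← hε] at k1
  rw [← hF, ← hG, ← hH, ← hε]
  have h6 : (1 + ε)⁻¹ * (G + 2 * M + H) ≤ G + H := by
    rw [inv_mul_le_iff₀ (by linarith)]
    have h7 : ε * (1 * G + 1⁻¹ * H) = ε * G + ε * H := by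
      rw [inv_one]
      ring
    linarith
  linarith

end Pool.Agent.V7H40.CH
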